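import Pool.Agent.WT59.DisjB

/-!
Definitions for the excluded minor theorem (note 2925 of MP_e6151a_ag).

* `Star r E f` : two skew sets over `F`, both without coloops over `F` and without parallel elements, span together with `F`.
* `EM r E f T0 T1 m c H` : exact matching of a closest pair of good bases of different colours.
-/

set_option autoImplicit false

namespace Pool.Agent.EX84

open Finset Pool.Agent.DT3 Pool.Agent.CF98 Pool.Agent.WT59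

variable {α : Type*} [DecidableEq α]

/-- Two sets without coloops over `F` which are skew over `F` span together with `F`. -/
def Star (r : Finset α → ℕ) (E : Finset α) (f : ℕ) : Prop :=
  ∀ F ⊆ E, ∀ K1 ⊆ E, ∀ K2 ⊆ E, K1.Nonempty → K2.Nonempty →
    (∀ x ∈ K1, ∀ y ∈ K1, x ≠ y → r {x, y} = 2) → (∀ x ∈ K2, ∀ y ∈ K2, x ≠ y → r {x, y} = 2) →
    (∀ x ∈ K1 ∪ K2, r (insert x F) ≠ r F) →
    (∀ x ∈ K1, r (F ∪ K1.erase x) = r (F ∪ K1)) → (∀ x ∈ K2, r (F ∪ K2.erase x) = r (F ∪ K2)) →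
    r (F ∪ K1) + r (F ∪ K2) = r (F ∪ (K1 ∪ K2)) + r F → r (F ∪ (K1 ∪ K2)) = f

/-- The exact matching of two good bases `T0`, `T1`: `m y` is the partner of `y` in the lattice of tight sets, `H y` is the largest tight
set without `y` (for `T0`) and the largest tight set without `m y` (for `T1`), `c y` is the only element of `T0 \ T1` in the fundamental
circuit of `y`. -/
structure EM (r : Finset α → ℕ) (E : Finset α) (f : ℕ) (T0 T1 : Finset α) (m c : α → α)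
    (H : α → Finset α) : Prop where
  mp : ∀ y ∈ T1 \ T0, m y ∈ T0 \ T1
  cp : ∀ y ∈ T1 \ T0, c y ∈ T0 \ T1
  mi : Set.InjOn m (T1 \ T0 : Finset α)
  ci : Set.InjOn c (T1 \ T0 : Finset α)
  hE : ∀ y ∈ T1 \ T0, H y ⊆ E
  t0 : ∀ y ∈ T1 \ T0, sg r T0 (H y) = 0
  t1 : ∀ y ∈ T1 \ T0, sg r T1 (H y) = 0
  n0 : ∀ y ∈ T1 \ T0, y ∉ H y
  n1 : ∀ y ∈ T1 \ T0, m y ∉ H y
  x0 : ∀ y ∈ T1 \ T0, ∀ X ⊆ E, sg r T0 X = 0 → y ∉ X → X ⊆ H y
  x1 : ∀ y ∈ T1 \ T0, ∀ X ⊆ E, sg r T1 X = 0 → m y ∉ X → X ⊆ H y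
  in0 : ∀ y ∈ T1 \ T0, (T0 \ T1).erase (m y) ⊆ H y
  in1 : ∀ y ∈ T1 \ T0, (T1 \ T0).erase y ⊆ H y
  c0 : ∀ y ∈ T1 \ T0, ∀ x ∈ T0 \ T1, r (insert y (T0.erase x)) = f ↔ x = c y
  c1 : ∀ y ∈ T1 \ T0, ∀ x ∈ T0 \ T1, r (insert x (T1.erase y)) = f ↔ x = c y
  ne : 2 ≤ (T0 \ T1).card → ∀ y ∈ T1 \ T0, c y ≠ m y

/-- `T0`, `T1` is a closest pair of good bases of different colours. -/
structure Clo (r : Finset α → ℕ) (E : Finset α) (f : ℕ) (Q : Finset α → Prop) (T0 T1 : Finset α) : Prop where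
  g0 : Gd r E f T0
  g1 : Gd r E f T1
  q0 : Q T0
  q1 : ¬ Q T1
  min : ∀ T T', Gd r E f T → Gd r E f T' → Q T → ¬ Q T' → (T0 \ T1).card ≤ (T \ T').card

end Pool.Agent.EX84
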