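import Pool.Agent.EX84.Dl
import Pool.Agent.EX84.Defs

/-!
Adjacency over a tight set `F`: either some `x ∈ K1` and `y ∈ K2` are adjacent, or `K1` and `K2` are skew over `F` and do not span.
-/

set_option autoImplicit false

namespace Pool.Agent.EX84

open Finset Pool.Agent.DT3 Pool.Agent.CF98 Pool.Agent.WT59

variable {α : Type*} [DecidableEq α] {r : Finset α → ℕ} {S F K1 K2 : Finset α} {f g : ℕ}

/-- Two sets of non-loops: an adjacent pair, or skew and not spanning. -/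
theorem adj0 (h : RankFn r) (hS : Rig r S f)
    (hl1 : ∀ x ∈ K1, 0 < r {x}) (hl2 : ∀ x ∈ K2, 0 < r {x})
    (hn1 : K1.Nonempty) (hn2 : K2.Nonempty) (hrk : ∀ X ⊆ S ∪ (K1 ∪ K2), r X ≤ f) :
    (∃ J, Hl r S f J ∧ (∃ x ∈ K1, r (insert x J) = f) ∧ (∃ x ∈ K2, r (insert x J) = f)) ∨
    (r K1 + r K2 = r (K1 ∪ K2) ∧ r (K1 ∪ K2) ≠ f) := by
  by_contra hcon
  rw [not_or] at hcon
  obtain ⟨hA, hB⟩ := hcon
  have hne : r (K1 ∪ K2) ≠ f := fun hsp => hA (lemD h hS hl1 hl2 hn1 hn2 hsp hrk)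
  refine hB ⟨?_, hne⟩
  obtain ⟨x1, hx1⟩ := hn1
  have hf : 1 ≤ f := by
    have h1 := hl1 x1 hx1
    have h2 := hrk {x1} (singleton_subset_iff.2 (mem_union_right _ (mem_union_left _ hx1)))
    omega
  have h0 := hS.card
  have hSn : S.Nonempty := by
    rw [← card_pos]; omega
  have hSr : r S = f := by
    have h1 := hS.lt S (Subset.refl S) hSn
    have h2 := hrk S subset_union_left
    omega
  refine skewK h h (Y := S) (f := f) (g := f) (by omega) hSr ?_ ?_ ?_ ?_ hf ?_ ?_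
  · intro X hX hXn
    have h1 := hS.lt X hX hXn
    omega
  · intro x hx
    rcases mem_union.1 hx with hx | hx
    · exact hl1 x hx
    · exact hl2 x hx
  · intro x hx
    have h1 := h.mono S (insert x S) (subset_insert x S)
    have h2 := hrk (insert x S) (insert_subset hx subset_union_left)
    omega
  · have h1 := h.mono S (S ∪ (K1 ∪ K2)) subset_union_left
    have h2 := hrk (S ∪ (K1 ∪ K2)) (Subset.refl _)
    omega
  · intro x hx
    have h1 := hS.lt {x} (singleton_subset_iff.2 hx) (singleton_nonempty x)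
    rw [card_singleton] at h1
    omega
  · intro J hJ h1 h2 h3
    by_contra hc
    rw [not_or] at hc
    obtain ⟨hc1, hc2⟩ := hc
    push Not at hc1 hc2
    obtain ⟨x, hx, hx'⟩ := hc1
    obtain ⟨y, hy, hy'⟩ := hc2
    have hJ' : Hl r S f J := ⟨hJ, h1, h2, h3⟩
    exact hA ⟨J, hJ', ⟨x, hx, full_of_ne h hJ' hx'⟩, ⟨y, hy, full_of_ne h hJ' hy'⟩⟩

/-- The relative form. -/
theorem adjF (h : RankFn r) (hSF : Disjoint S F)
    (hd1 : Disjoint K1 S) (hd2 : Disjoint K2 S) (hn1 : K1.Nonempty) (hn2 : K2.Nonempty)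
    (hl : ∀ x ∈ K1 ∪ K2, r (insert x F) ≠ r F)
    (hc : S.card + 1 + 2 * r F = 2 * g)
    (hs : ∀ A ⊆ S, A.Nonempty → A.card + 1 + 2 * r F ≤ 2 * r (A ∪ F))
    (hrk : ∀ X ⊆ S ∪ F ∪ (K1 ∪ K2), r X ≤ g) :
    (∃ J ⊆ S, J.card + 1 + r F = g ∧ r (J ∪ F) + 1 = g ∧ r ((S \ J) ∪ F) = g ∧
      (∃ x ∈ K1, r (insert x (J ∪ F)) = g) ∧ (∃ x ∈ K2, r (insert x (J ∪ F)) = g)) ∨
    (r (F ∪ K1) + r (F ∪ K2) = r (F ∪ (K1 ∪ K2)) + r F ∧ r (F ∪ (K1 ∪ K2)) ≠ g) := by
  have hFr : ∀ X : Finset α, r F ≤ r (X ∪ F) := fun X => h.mono _ _ subset_union_right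
  have hins : ∀ (x : α) (X : Finset α), insert x X ∪ F = insert x (X ∪ F) := fun x X => insert_union x X F
  have hgF : r F ≤ g := hrk F (fun x hx => mem_union_left _ (mem_union_right _ hx))
  have hl' : ∀ x ∈ K1 ∪ K2, 0 < r ({x} ∪ F) - r F := by
    intro x hx
    have h1 := rk_ins_ne h (hl x hx)
    rw [← insert_eq]
    omega
  have hS' : Rig (fun X => r (X ∪ F) - r F) S (g - r F) := by
    refine ⟨by omega, ?_⟩
    intro A hA hAn
    have h1 := hs A hA hAn
    have h2 := hFr A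
    show A.card + 1 ≤ 2 * (r (A ∪ F) - r F)
    omega
  rcases adj0 (r := fun X => r (X ∪ F) - r F) (contr_rank h F) hS'
    (fun x hx => hl' x (mem_union_left _ hx)) (fun x hx => hl' x (mem_union_right _ hx)) hn1 hn2
    (by
      intro X hX
      show r (X ∪ F) - r F ≤ g - r F
      have h1 := hrk (X ∪ F) (union_subset (fun x hx => by
        rcases mem_union.1 (hX hx) with h2 | h2
        · exact mem_union_left _ (mem_union_left _ h2)
        · exact mem_union_right _ h2) (fun x hx => mem_union_left _ (mem_union_right _ hx)))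
      omega) with ⟨J, hJ, ⟨x, hx, hx'⟩, ⟨y, hy, hy'⟩⟩ | ⟨h1, h2⟩
  · left
    have a1 := hJ.card
    have a2 : r (J ∪ F) - r F + 1 = g - r F := hJ.rk
    have a3 : r ((S \ J) ∪ F) - r F = g - r F := hJ.co
    have a4 : r (insert x J ∪ F) - r F = g - r F := hx'
    have a5 : r (insert y J ∪ F) - r F = g - r F := hy'
    rw [hins] at a4 a5
    have b1 := hFr J
    have b2 := hFr (S \ J)
    have b3 := h.mono F (insert x (J ∪ F)) (subset_union_right.trans (subset_insert _ _))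
    have b4 := h.mono F (insert y (J ∪ F)) (subset_union_right.trans (subset_insert _ _))
    exact ⟨J, hJ.sub, by omega, by omega, by omega, ⟨x, hx, by omega⟩, ⟨y, hy, by omega⟩⟩
  · right
    have a1 : (r (K1 ∪ F) - r F) + (r (K2 ∪ F) - r F) = r (K1 ∪ K2 ∪ F) - r F := h1
    have a2 : r (K1 ∪ K2 ∪ F) - r F ≠ g - r F := h2
    have b1 := hFr K1
    have b2 := hFr K2
    have b3 := hFr (K1 ∪ K2)
    rw [union_comm F K1, union_comm F K2, union_comm F (K1 ∪ K2)]
    exact ⟨by omega, by omega⟩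

end Pool.Agent.EX84
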