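import Pool.Agent.EX84.K2A

/-!
Existence of a closest pair.
-/

set_option autoImplicit false

namespace Pool.Agent.EX84

open Finset Pool.Agent.DT3 Pool.Agent.CF98 Pool.Agent.WT59

variable {α : Type*} [DecidableEq α] {r : Finset α → ℕ} {E A B : Finset α} {f : ℕ} {Q : Finset α → Prop}

theorem exists_clo (hA : Gd r E f A) (hB : Gd r E f B) (qA : Q A) (qB : ¬ Q B) :
    ∃ T0 T1, Clo r E f Q T0 T1 ∧ 1 ≤ (T0 \ T1).card := by
  classical
  have hne : ((E.powerset ×ˢ E.powerset).filter fun p => Gd r E f p.1 ∧ Gd r E f p.2 ∧ Q p.1 ∧ ¬ Q p.2).Nonempty :=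
    ⟨(A, B), by
      rw [mem_filter, mem_product, mem_powerset, mem_powerset]
      exact ⟨⟨hA.1, hB.1⟩, hA, hB, qA, qB⟩⟩
  obtain ⟨⟨T0, T1⟩, hT, hmin⟩ := exists_min_image _ (fun p : Finset α × Finset α => (p.1 \ p.2).card) hne
  rw [mem_filter] at hT
  obtain ⟨-, g0, g1, q0, q1⟩ := hT
  refine ⟨T0, T1, ⟨g0, g1, q0, q1, ?_⟩, ?_⟩
  · intro T T' hT hT' hq hq'
    exact hmin (T, T') (by
      rw [mem_filter, mem_product, mem_powerset, mem_powerset]
      exact ⟨⟨hT.1, hT'.1⟩, hT, hT', hq, hq'⟩)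
  · by_contra h0
    have h1 : T0 \ T1 = ∅ := by
      rw [← card_eq_zero]; omega
    have h2 : T0 ⊆ T1 := sdiff_eq_empty_iff_subset.1 h1
    have h3 : T0 = T1 := eq_of_subset_of_card_le h2 (by
      have a := g0.2.1.1
      have b := g1.2.1.1
      change T0.card = f at a
      change T1.card = f at b
      omega)
    exact q1 (h3 ▸ q0)

end Pool.Agent.EX84
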