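import Pool.Agent.EX54.Nap
import Pool.Agent.DT3.AppT

/-!
No critical flats in a minimal non-adjacent rigid system (helper76's 2982 (2)(a) of MP_e6151a_ag).

* `Adj r g` : in every rigid set of rank `g` every two non-loops are adjacent.
* `no_crit` : if all contractions are adjacent in rank `< f` and `x`, `y` are not adjacent for the rigid set `S` of rank `f`, then
  `|R| + 1 = 2 r R`, `2 ≤ r R` only for `r R = f`.
* `adj3` : `Adj r g` for `g ≤ 3`.
* `nocrit4`, `nap_nocrit4` : the case of rank 4.
-/

set_option autoImplicit false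

namespace Pool.Agent.EX84

open Finset Pool.Agent.DT3 Pool.Agent.CF98 Pool.Agent.WT59 Pool.Agent.EX54 Pool.Agent.SA65

variable {α : Type*} [DecidableEq α] {r : Finset α → ℕ} {S R J Y A C : Finset α} {f g k : ℕ} {x y a b : α}

/-- Every two non-loops are adjacent for every rigid set of rank `f`. -/
def Adj (r : Finset α → ℕ) (f : ℕ) : Prop :=
  ∀ (S : Finset α) (x y : α), Rig r S f → 0 < r {x} → 0 < r {y} → (∀ X ⊆ S ∪ {x, y}, r X ≤ f) →
    ∃ J, Hl r S f J ∧ r (insert x J) = f ∧ r (insert y J) = f

/-- The elements outside a critical set fall into two bases of the contraction. -/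
theorem crit_parts (h : RankFn r) (hS : Rig r S f) (hrk : ∀ X ⊆ S, r X ≤ f) (hR : R ⊆ S) (hc : R.card + 1 = 2 * r R) :
    ∃ Y ⊆ S \ R, Y.card + r R = f ∧ ((S \ R) \ Y).card + r R = f ∧ r (R ∪ Y) = f ∧ r (R ∪ ((S \ R) \ Y)) = f := by
  have hRf := hrk R hR
  have hSc := hS.card
  have hRc := card_sdiff_add_card_eq_card hR
  have hm : ∀ X : Finset α, r R ≤ r (X ∪ R) := fun X => h.mono _ _ subset_union_right
  obtain ⟨B, h1, h2, h3, h4⟩ := parts_any (contr_rank h R) (k := f - r R) (m := 2) (S \ R) (by omega)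
    (by
      intro A hA
      show A.card ≤ 2 * (r (A ∪ R) - r R)
      have t1 := hS.lt (A ∪ R) (union_subset (hA.trans sdiff_subset) hR) (by
        rw [← card_pos]
        have := card_le_card (subset_union_right (s₁ := A) (s₂ := R))
        omega)
      have t2 : (A ∪ R).card = A.card + R.card := by
        apply card_union_of_disjoint
        exact disjoint_of_subset_left hA sdiff_disjoint
      have := hm A
      omega)
    (by
      intro A hA
      show r (A ∪ R) - r R ≤ f - r R
      have := hrk (A ∪ R) (union_subset (hA.trans sdiff_subset) hR)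
      omega)
  have e1 : (S \ R) \ B 0 = B 1 := by
    ext z
    rw [mem_sdiff]
    constructor
    · rintro ⟨t1, t2⟩
      obtain ⟨i, hi⟩ := h4 z t1
      fin_cases i
      · exact absurd hi t2
      · exact hi
    · intro t1
      exact ⟨h1 1 t1, fun t2 => disjoint_left.1 (h3 0 1 (by decide)) t2 t1⟩
  have a0 := h2 0
  have a1 := h2 1
  have b0 : r (B 0 ∪ R) - r R = f - r R := a0.2
  have b1 : r (B 1 ∪ R) - r R = f - r R := a1.2
  have c0 := hm (B 0)
  have c1 := hm (B 1)
  rw [union_comm] at b0 b1 c0 c1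
  refine ⟨B 0, h1 0, by omega, by rw [e1]; omega, by omega, ?_⟩
  rw [e1]
  omega

/-- `r (A ∪ Y) = r A + r Y` for `A` inside a set skew to `Y`. -/
theorem skew_sub (h : RankFn r) (hs : r (R ∪ Y) = r R + r Y) (hA : A ⊆ R) : r (A ∪ Y) = r A + r Y := by
  have h1 := h.submod (A ∪ Y) R
  have h2 := h.mono A ((A ∪ Y) ∩ R) (fun z hz => mem_inter.2 ⟨mem_union_left _ hz, hA hz⟩)
  have h3 : A ∪ Y ∪ R = R ∪ Y := by
    ext z
    simp only [mem_union]
    constructor
    · rintro ((t | t) | t)
      · exact Or.inl (hA t)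
      · exact Or.inr t
      · exact Or.inl t
    · rintro (t | t)
      · exact Or.inr t
      · exact Or.inl (Or.inr t)
  rw [h3] at h1
  have h4 := rk_le_add h A Y
  omega

theorem skew_ins (h : RankFn r) (hs : r (R ∪ Y) = r R + r Y) (hx : r (insert x R) = r R) :
    r (insert x R ∪ Y) = r (insert x R) + r Y := by
  have h1 : r (insert x R ∪ Y) = r (R ∪ Y) := by
    rw [insert_union]
    exact h.mono_insert hx subset_union_left
  omega

/-- A set inside `T` with the rank of `T` can be replaced by `T`. -/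
theorem rk_repl (h : RankFn r) {T U : Finset α} (hU : U ⊆ T) (he : r U = r T) (Z : Finset α) : r (U ∪ Z) = r (T ∪ Z) :=
  rk_cup_congr h hU he Z

/-- Case 1 : `x` and `y` are spanned by the critical set. -/
theorem nocrit_in (h : RankFn r) (hadj : Adj r (r R)) (hS : Rig r S f)
    (hx : 0 < r {x}) (hy : 0 < r {y}) (hrk : ∀ X ⊆ S ∪ {x, y}, r X ≤ f) (hR : R ⊆ S) (hc : R.card + 1 = 2 * r R)
    (hxR : r (insert x R) = r R) (hyR : r (insert y R) = r R) :
    ∃ J, Hl r S f J ∧ r (insert x J) = f ∧ r (insert y J) = f := by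
  obtain ⟨Y, hY, c1, c2, c3, c4⟩ := crit_parts h hS (fun X hX => hrk X (hX.trans subset_union_left)) hR hc
  have hxy : r (R ∪ {x, y}) = r R := by
    apply rk_union_eq h
    intro z hz
    rw [mem_insert, mem_singleton] at hz
    rcases hz with rfl | rfl
    · exact hxR
    · exact hyR
  obtain ⟨J, hJ, hJx, hJy⟩ := hadj R x y ⟨hc, fun A hA hn => hS.lt A (hA.trans hR) hn⟩ hx hy (fun X hX => by
    have := h.mono X _ hX
    omega)
  have j1 := hJ.sub
  have j2 := hJ.card
  have j3 := hJ.rk
  have j4 := hJ.co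
  have hYR : Disjoint Y R := disjoint_of_subset_left hY sdiff_disjoint
  have hJY : Disjoint J Y := (disjoint_of_subset_right j1 hYR).symm
  have hspan : ∀ z, r (insert z R) = r R → r (insert z J) = r R → r (insert z (J ∪ Y)) = f := by
    intro z hz hz'
    have t1 := rk_repl h (insert_subset_insert z j1) (by rw [hz, hz']) Y
    rw [insert_union, insert_union] at t1
    have t2 : r (insert z (R ∪ Y)) = r (R ∪ Y) := h.mono_insert hz subset_union_left
    omega
  have hx1 := hspan x hxR hJx
  have hJYc : (J ∪ Y).card = J.card + Y.card := card_union_of_disjoint hJY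
  have hco : S \ (J ∪ Y) = (R \ J) ∪ ((S \ R) \ Y) := by
    ext z
    simp only [mem_sdiff, mem_union, not_or]
    constructor
    · rintro ⟨t1, t2, t3⟩
      by_cases t4 : z ∈ R
      · exact Or.inl ⟨t4, t2⟩
      · exact Or.inr ⟨⟨t1, t4⟩, t3⟩
    · rintro (⟨t1, t2⟩ | ⟨⟨t1, t2⟩, t3⟩)
      · exact ⟨hR t1, t2, fun t3 => disjoint_left.1 hYR t3 t1⟩
      · exact ⟨t1, fun t4 => t2 (j1 t4), t3⟩
  refine ⟨J ∪ Y, ⟨union_subset (j1.trans hR) (hY.trans sdiff_subset), by omega, ?_, ?_⟩, hx1, hspan y hyR hJy⟩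
  · have t1 := h.insert_le x (J ∪ Y)
    have t2 := h.le_card (J ∪ Y)
    omega
  · rw [hco]
    have t1 := rk_repl h (sdiff_subset (s := R) (t := J)) j4 ((S \ R) \ Y)
    omega

private theorem nc_a {u R y c f : ℕ} (t1 : u ≤ R + y) (t2 : y ≤ c) (c1 : c + R = f) (c3 : u = f) : y = c := by
  omega

private theorem nc_b {s c R' R f : ℕ} (hS : s + 1 = 2 * f) (hR : c + R' = s) (hc : R' + 1 = 2 * R) :
    c + 2 * R = 2 * f := by
  omega

private theorem nc_b2 {c R : ℕ} (hc : c + 1 = 2 * R) (h2 : 2 ≤ R) : 0 < c := by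
  omega

private theorem nc_b3 {c R f : ℕ} (h : c + 2 * R = 2 * f) (hlt : R < f) : 0 < c := by
  omega

private theorem nc_b4 {c R f y t : ℕ} (h : c + 2 * R = 2 * f) (hy : y + R = f) (t3 : c + 1 ≤ 2 * t) (t2 : t ≤ y) :
    False := by
  omega

private theorem nc_c {u y R f : ℕ} (t : u ≤ f) (h : y + R = f) : u - y ≤ R := by
  omega

private theorem nc_d {u y R f : ℕ} (j : u - y = R) (t : y ≤ u) (h : y + R = f) : u = f := by
  omega

private theorem nc_d2 {u y R f : ℕ} (t : u = f) (h : y + R = f) : u - y = R := by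
  omega

private theorem nc_e {u v b R' R : ℕ} (t1 : u + 1 ≤ 2 * v) (t2 : u = R' + b) (hc : R' + 1 = 2 * R) :
    b + 2 * R ≤ 2 * v := by
  omega

private theorem nc_e2 {u v b R' R : ℕ} (t2 : u = R' + b) (hc : R' + 1 = 2 * R) (he : b + 2 * R = 2 * v) :
    u + 1 = 2 * v := by
  omega

private theorem nc_e3 {b R v : ℕ} (t3 : 0 < b) (he : b + 2 * R = 2 * v) : R < v := by
  omega

private theorem nc_e4 {b R f c : ℕ} (he : b + 2 * R = 2 * f) (h : c + 2 * R = 2 * f) : c ≤ b := by
  omega

private theorem nc_f {c R f : ℕ} (h : c + 2 * R = 2 * f) (hlt : R < f) : c + 1 + 1 = 2 * (f - R + 1) := by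
  omega

private theorem nc_g {a e R t j : ℕ} (h : e + 1 = a) (t1 : e + 2 * R ≤ 2 * t) (j3 : j + 1 = R) :
    a + 1 ≤ 2 * (t - j) := by
  omega

private theorem nc_h {c R f u j : ℕ} (h : c + 2 * R = 2 * f) (t5 : f ≤ u) (j3 : j + 1 = R) : c + 1 ≤ 2 * (u - j) := by
  omega

private theorem nc_i {a R t u j : ℕ} (t1 : a + 2 * R ≤ 2 * t) (hne : ¬ a + 2 * R = 2 * t) (t3 : t ≤ u + 1)
    (j3 : j + 1 = R) : a + 1 ≤ 2 * (u - j) := by
  omega

private theorem nc_j {R f : ℕ} (h2 : 2 ≤ R) (hlt : R < f) : f - R + 1 < f := by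
  omega

private theorem nc_k {u j R f : ℕ} (t1 : u ≤ f) (j3 : j + 1 = R) (hlt : R < f) : u - j ≤ f - R + 1 := by
  omega

private theorem nc_m {u j R f : ℕ} (q : u - j = f - R + 1) (hj : j ≤ u) (hlt : R < f) (j3 : j + 1 = R) : u = f := by
  omega

private theorem nc_q2 {q R f : ℕ} (q2 : q + 1 = f - R + 1) (hlt : R < f) : q + R = f := by
  omega

private theorem nc_l {u a q' q R' R j f : ℕ} (hc' : u = a + q') (h1 : a + j = R') (h2 : q' + 1 = q) (h3 : q + R = f)
    (hc : R' + 1 = 2 * R) (j2 : j + 1 = R) : u + 1 = f := by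
  omega

private theorem nc_n {c f a t : ℕ} (hc : c + 1 = f) (hx : a = f) (t1 : a ≤ t + 1) (t2 : t ≤ c) : t + 1 = f := by
  omega

private theorem nc_o {u j q R f : ℕ} (hc' : u = j + q) (j2 : j + 1 = R) (h : q + R = f) : u + 1 = f := by
  omega

/-- Case 2 : `y` is not spanned by the maximal critical set. -/
theorem nocrit_out (h : RankFn r) (hadj : ∀ (C : Finset α) (g : ℕ), g < f → Adj (fun X => r (X ∪ C) - r C) g)
    (hS : Rig r S f) (hx : 0 < r {x}) (hrk : ∀ X ⊆ S ∪ {x, y}, r X ≤ f) (hR : R ⊆ S)
    (hc : R.card + 1 = 2 * r R) (h2 : 2 ≤ r R) (hlt : r R < f)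
    (hmax : ∀ A ⊆ S, A.card + 1 = 2 * r A → r R < r A → r A = f)
    (hyR : r (insert y R) ≠ r R) :
    ∃ J, Hl r S f J ∧ r (insert x J) = f ∧ r (insert y J) = f := by
  classical
  have hxS : x ∈ S ∪ {x, y} := mem_union_right _ (mem_insert_self x _)
  have hyS : y ∈ S ∪ {x, y} := mem_union_right _ (mem_insert_of_mem (mem_singleton_self y))
  have hSu : S ⊆ S ∪ {x, y} := subset_union_left
  obtain ⟨Y, hY, c1, c2, c3, c4⟩ := crit_parts h hS (fun X hX => hrk X (hX.trans subset_union_left)) hR hc
  have hYS : Y ⊆ S := hY.trans sdiff_subset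
  have hYR : Disjoint Y R := disjoint_of_subset_left hY sdiff_disjoint
  have hSc := hS.card
  have hRc := card_sdiff_add_card_eq_card hR
  -- `Y` is independent and skew to `R`
  have hYr : r Y = Y.card := by
    exact nc_a (rk_le_add h R Y) (h.le_card Y) c1 c3
  have hYf : r Y + r R = f := by rw [hYr]; exact c1
  have hsk : r (R ∪ Y) = r R + r Y := by rw [c3, Nat.add_comm, hYf]
  have hSRc : (S \ R).card + 2 * r R = 2 * f := nc_b hSc hRc hc
  have hRpos : 0 < R.card := nc_b2 hc h2
  have hsub : ∀ B ⊆ R, r (B ∪ Y) = r B + r Y := fun B hB => skew_sub h hsk hB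
  -- the element `a`
  obtain ⟨a, ha, haY⟩ : ∃ a ∈ S \ R, r (insert a Y) ≠ r Y := by
    by_contra hcon
    push Not at hcon
    have t1 : r (Y ∪ (S \ R)) = r Y := rk_union_eq h hcon
    have t2 := h.mono (S \ R) (Y ∪ (S \ R)) subset_union_right
    have t3 := hS.lt (S \ R) sdiff_subset (by rw [← card_pos]; exact nc_b3 hSRc hlt)
    exact nc_b4 hSRc hYf t3 (t2.trans_eq t1)
  have haS : a ∈ S := (mem_sdiff.1 ha).1
  have haY1 := rk_ins_ne h haY
  -- the set `J` inside `R`
  have hRY : Rig (fun X => r (X ∪ Y) - r Y) R (r R) := by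
    refine ⟨hc, fun B hB hn => ?_⟩
    show B.card + 1 ≤ 2 * (r (B ∪ Y) - r Y)
    rw [hsub B hB, Nat.add_sub_cancel]
    exact hS.lt B (hB.trans hR) hn
  have ha0 : 0 < (fun X => r (X ∪ Y) - r Y) {a} := by
    show 0 < r ({a} ∪ Y) - r Y
    rw [← insert_eq, haY1, Nat.add_sub_cancel_left]
    exact Nat.one_pos
  obtain ⟨J, j1, j2, j3, j4, j5, j6⟩ : ∃ J ⊆ R, J.card + 1 = r R ∧ r J + 1 = r R ∧ r (R \ J) = r R ∧
      r (insert a (J ∪ Y)) = f ∧ (r (insert x R) = r R → r (insert x J) = r R) := by
    by_cases hxR : r (insert x R) = r R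
    · have hsk' := skew_ins h hsk hxR
      have hsub' : ∀ B ⊆ insert x R, r (B ∪ Y) = r B + r Y := fun B hB => skew_sub h hsk' hB
      have hx0 : 0 < (fun X => r (X ∪ Y) - r Y) {x} := by
        show 0 < r ({x} ∪ Y) - r Y
        rw [hsub' {x} (singleton_subset_iff.2 (mem_insert_self x R)), Nat.add_sub_cancel]
        exact hx
      obtain ⟨J, hJ, hJx, hJa⟩ := hadj Y (r R) hlt R x a hRY hx0 ha0 (by
        intro X hX
        show r (X ∪ Y) - r Y ≤ r R
        have t1 := hrk (X ∪ Y) (union_subset (fun z hz => by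
          rcases mem_union.1 (hX hz) with t | t
          · exact hSu (hR t)
          · rw [mem_insert, mem_singleton] at t
            rcases t with rfl | rfl
            · exact hxS
            · exact hSu haS) (hYS.trans hSu))
        exact nc_c t1 hYf)
      have j1 := hJ.sub
      have j3 : r (J ∪ Y) - r Y + 1 = r R := hJ.rk
      have j4 : r ((R \ J) ∪ Y) - r Y = r R := hJ.co
      rw [hsub J j1] at j3
      rw [hsub _ sdiff_subset] at j4
      have j5 : r (insert a J ∪ Y) - r Y = r R := hJa
      rw [insert_union] at j5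
      have j6 : r (insert x J ∪ Y) - r Y = r R := hJx
      rw [hsub' _ (insert_subset_insert x j1)] at j6
      have t3 := h.mono Y (insert a (J ∪ Y)) (subset_union_right.trans (subset_insert _ _))
      rw [Nat.add_sub_cancel] at j3 j4 j6
      exact ⟨J, j1, hJ.card, j3, j4, nc_d j5 t3 hYf, fun _ => j6⟩
    · obtain ⟨J, hJ, hJa⟩ := hl_exists (contr_rank h Y) hRY ha0 (by
        show r (insert a R ∪ Y) - r Y = r R
        have t1 := hrk (insert a R ∪ Y) (union_subset (insert_subset (hSu haS) (hR.trans hSu)) (hYS.trans hSu))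
        have t2 := h.mono (R ∪ Y) (insert a R ∪ Y) (union_subset_union (subset_insert a R) (Subset.refl Y))
        rw [c3] at t2
        exact nc_d2 (le_antisymm t1 t2) hYf)
      have j1 := hJ.sub
      have j3 : r (J ∪ Y) - r Y + 1 = r R := hJ.rk
      have j4 : r ((R \ J) ∪ Y) - r Y = r R := hJ.co
      rw [hsub J j1] at j3
      rw [hsub _ sdiff_subset] at j4
      have j5 : r (insert a J ∪ Y) - r Y = r R := hJa
      rw [insert_union] at j5
      have t3 := h.mono Y (insert a (J ∪ Y)) (subset_union_right.trans (subset_insert _ _))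
      rw [Nat.add_sub_cancel] at j3 j4
      exact ⟨J, j1, hJ.card, j3, j4, nc_d j5 t3 hYf, fun t => absurd t hxR⟩
  -- the element `b`
  obtain ⟨b, hb, hbJ⟩ : ∃ b ∈ R, r (insert b J) ≠ r J := by
    by_contra hcon
    push Not at hcon
    have t1 : r (J ∪ R) = r J := rk_union_eq h hcon
    have t2 := h.mono R (J ∪ R) subset_union_right
    rw [t1, ← j3] at t2
    exact absurd t2 (Nat.not_succ_le_self _)
  have hbJ1 := rk_ins_ne h hbJ
  have hbS : b ∈ S := hR hb
  have hbn : b ∉ J := by
    intro t
    rw [insert_eq_of_mem t] at hbJ1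
    exact absurd hbJ1 (Nat.succ_ne_self _).symm
  have hbSR : b ∉ S \ R := fun t => (mem_sdiff.1 t).2 hb
  have hJS : J ⊆ S := j1.trans hR
  -- replacing `J + b` by `R`
  have hJb : ∀ Z : Finset α, r (insert b J ∪ Z) = r (R ∪ Z) := fun Z =>
    rk_repl h (insert_subset hb j1) (hbJ1.trans j3) Z
  have hmJ : ∀ X : Finset α, r J ≤ r (X ∪ J) := fun X => h.mono _ _ subset_union_right
  -- outside `R`
  have hout : ∀ B ⊆ S \ R, B.card + 2 * r R ≤ 2 * r (R ∪ B) := by
    intro B hB
    have t1 := hS.lt (R ∪ B) (union_subset hR (hB.trans sdiff_subset)) (by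
      rw [← card_pos]
      exact hRpos.trans_le (card_le_card (subset_union_left (s₁ := R) (s₂ := B))))
    have t2 : (R ∪ B).card = R.card + B.card := by
      apply card_union_of_disjoint
      exact (disjoint_of_subset_left hB sdiff_disjoint).symm
    exact nc_e t1 t2 hc
  have hout' : ∀ B ⊆ S \ R, B.Nonempty → B.card + 2 * r R = 2 * r (R ∪ B) → B = S \ R := by
    intro B hB hn he
    have t2 : (R ∪ B).card = R.card + B.card := by
      apply card_union_of_disjoint
      exact (disjoint_of_subset_left hB sdiff_disjoint).symm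
    have t3 := card_pos.2 hn
    have t1 := hmax (R ∪ B) (union_subset hR (hB.trans sdiff_subset)) (nc_e2 t2 hc he) (nc_e3 t3 he)
    apply eq_of_subset_of_card_le hB
    rw [t1] at he
    exact nc_e4 he hSRc
  -- the rigid set in `M / J`
  have hRig : Rig (fun X => r (X ∪ J) - r J) (insert b (S \ R)) (f - r R + 1) := by
    refine ⟨?_, ?_⟩
    · rw [card_insert_of_notMem hbSR]
      exact nc_f hSRc hlt
    · intro A hA hn
      show A.card + 1 ≤ 2 * (r (A ∪ J) - r J)
      have m1 := hmJ A
      by_cases hbA : b ∈ A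
      · have t0 : A.erase b ⊆ S \ R := by
          intro z hz
          have hz' := mem_erase.1 hz
          exact (mem_insert.1 (hA hz'.2)).resolve_left hz'.1
        have t1 := hout (A.erase b) t0
        have t2 : r (A ∪ J) = r (R ∪ A.erase b) := by
          rw [← hJb (A.erase b)]
          congr 1
          ext z
          simp only [mem_union, mem_insert, mem_erase]
          constructor
          · rintro (t | t)
            · by_cases hzb : z = b
              · exact Or.inl (Or.inl hzb)
              · exact Or.inr ⟨hzb, t⟩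
            · exact Or.inl (Or.inr t)
          · rintro ((t | t) | t)
            · exact Or.inl (t ▸ hbA)
            · exact Or.inr t
            · exact Or.inl t.2
        have t3 := card_erase_add_one hbA
        rw [t2]
        exact nc_g t3 t1 j3
      · have t0 : A ⊆ S \ R := by
          intro z hz
          exact (mem_insert.1 (hA hz)).resolve_left (fun t => hbA (t ▸ hz))
        have t1 := hout A t0
        -- adding `b`
        have t2 : r (insert b (A ∪ J)) = r (R ∪ A) := by
          rw [← hJb A]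
          congr 1
          ext z
          simp only [mem_union, mem_insert]
          exact ⟨fun t => t.elim (fun t => Or.inl (Or.inl t)) fun t => t.elim Or.inr fun t => Or.inl (Or.inr t),
            fun t => t.elim (fun t => t.elim Or.inl fun t => Or.inr (Or.inr t)) fun t => Or.inr (Or.inl t)⟩
        have t3 := h.insert_le b (A ∪ J)
        by_cases hA' : A.card + 2 * r R = 2 * r (R ∪ A)
        · have t4 := hout' A t0 hn hA'
          have t5 := h.mono (insert a (J ∪ Y)) (A ∪ J) (by
            rw [t4]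
            refine insert_subset (mem_union_left _ ha) (union_subset subset_union_right (hY.trans subset_union_left)))
          rw [t4] at t5 ⊢
          rw [j5] at t5
          exact nc_h hSRc t5 j3
        · rw [t2] at t3
          exact nc_i t1 hA' t3 j3
  -- `x`, `y` are non-loops in `M / J`
  have hx0 : r (insert x J) ≠ r J := by
    by_cases hxR : r (insert x R) = r R
    · rw [j6 hxR, ← j3]
      exact Nat.succ_ne_self _
    · intro t
      exact hxR (h.mono_insert t j1)
  have hy0 : r (insert y J) ≠ r J := fun t => hyR (h.mono_insert t j1)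
  have hx1 := rk_ins_ne h hx0
  have hy1 := rk_ins_ne h hy0
  obtain ⟨Q, hQ, hQx, hQy⟩ := hadj J (f - r R + 1) (nc_j h2 hlt) (insert b (S \ R)) x y hRig
    (by
      show 0 < r ({x} ∪ J) - r J
      rw [← insert_eq, hx1, Nat.add_sub_cancel_left]
      exact Nat.one_pos)
    (by
      show 0 < r ({y} ∪ J) - r J
      rw [← insert_eq, hy1, Nat.add_sub_cancel_left]
      exact Nat.one_pos)
    (by
      intro X hX
      show r (X ∪ J) - r J ≤ f - r R + 1
      have t1 := hrk (X ∪ J) (union_subset (fun z hz => by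
        rcases mem_union.1 (hX hz) with t | t
        · rcases mem_insert.1 t with rfl | t
          · exact hSu hbS
          · exact hSu (mem_sdiff.1 t).1
        · exact mem_union_right _ t) (hJS.trans hSu))
      exact nc_k t1 j3 hlt)
  have q1 := hQ.sub
  have q2 := hQ.card
  have q4 : r ((insert b (S \ R) \ Q) ∪ J) = f := nc_m hQ.co (hmJ _) hlt j3
  have q5 : r (insert x Q ∪ J) = f := nc_m hQx (hmJ _) hlt j3
  have q6 : r (insert y Q ∪ J) = f := nc_m hQy (hmJ _) hlt j3
  rw [insert_union] at q5 q6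
  have q2' : Q.card + r R = f := nc_q2 q2 hlt
  by_cases hbQ : b ∈ Q
  · -- `b ∈ Q`
    obtain ⟨Q', hQ'⟩ : ∃ Q', Q' = Q.erase b := ⟨_, rfl⟩
    have hQ'S : Q' ⊆ S \ R := by
      intro z hz
      rw [hQ'] at hz
      have hz' := mem_erase.1 hz
      exact (mem_insert.1 (q1 hz'.2)).resolve_left hz'.1
    have hQ'c : Q'.card + 1 = Q.card := by rw [hQ']; exact card_erase_add_one hbQ
    have hd : Disjoint (R \ J) Q' := by
      rw [disjoint_left]
      intro z hz hz'
      exact (mem_sdiff.1 (hQ'S hz')).2 (mem_sdiff.1 hz).1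
    have hRJc := card_sdiff_add_card_eq_card j1
    have hc' : ((R \ J) ∪ Q').card = (R \ J).card + Q'.card := card_union_of_disjoint hd
    have hrep : ∀ Z : Finset α, r ((R \ J) ∪ Z) = r (R ∪ Z) := fun Z => rk_repl h sdiff_subset j4 Z
    have hQJ : ∀ z, r (insert z (Q ∪ J)) = r (insert z ((R \ J) ∪ Q')) := by
      intro z
      have t1 : insert z ((R \ J) ∪ Q') = (R \ J) ∪ insert z Q' := by
        ext w; simp only [mem_insert, mem_union]
        exact ⟨fun t => t.elim (fun t => Or.inr (Or.inl t)) fun t => t.elim Or.inl fun t => Or.inr (Or.inr t),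
          fun t => t.elim (fun t => Or.inr (Or.inl t)) fun t => t.elim Or.inl fun t => Or.inr (Or.inr t)⟩
      have t2 : insert z (Q ∪ J) = insert b J ∪ insert z Q' := by
        rw [hQ']
        ext w
        simp only [mem_insert, mem_union, mem_erase]
        constructor
        · rintro (t | t | t)
          · exact Or.inr (Or.inl t)
          · by_cases hwb : w = b
            · exact Or.inl (Or.inl hwb)
            · exact Or.inr (Or.inr ⟨hwb, t⟩)
          · exact Or.inl (Or.inr t)
        · rintro ((t | t) | (t | t))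
          · exact Or.inr (Or.inl (t ▸ hbQ))
          · exact Or.inr (Or.inr t)
          · exact Or.inl t
          · exact Or.inr (Or.inl t.2)
      rw [t1, t2, hrep, hJb]
    have x1 := hQJ x
    have y1 := hQJ y
    have hco : S \ ((R \ J) ∪ Q') = (insert b (S \ R) \ Q) ∪ J := by
      ext z
      rw [hQ']
      simp only [mem_sdiff, mem_union, mem_insert, mem_erase, not_or, not_and, not_not]
      constructor
      · rintro ⟨t1, t2, t3⟩
        by_cases t4 : z ∈ R
        · exact Or.inr (t2 t4)
        · refine Or.inl ⟨Or.inr ⟨t1, t4⟩, fun t5 => ?_⟩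
          have t6 : z ≠ b := fun t7 => t4 (t7 ▸ hb)
          exact t3 t6 t5
      · rintro (⟨t1, t2⟩ | t1)
        · rcases t1 with rfl | ⟨t1, t3⟩
          · exact absurd hbQ t2
          · exact ⟨t1, fun t4 => absurd t4 t3, fun _ => t2⟩
        · refine ⟨hJS t1, fun _ => t1, fun t3 t4 => ?_⟩
          have t5 := hQ'S (by rw [hQ']; exact mem_erase.2 ⟨t3, t4⟩)
          exact (mem_sdiff.1 t5).2 (j1 t1)
    have hcd : ((R \ J) ∪ Q').card + 1 = f := nc_l hc' hRJc hQ'c q2' hc j2
    refine ⟨(R \ J) ∪ Q', ⟨union_subset (sdiff_subset.trans hR) (hQ'S.trans sdiff_subset), hcd, ?_, ?_⟩,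
      x1.symm.trans q5, y1.symm.trans q6⟩
    · exact nc_n hcd (x1.symm.trans q5) (h.insert_le x ((R \ J) ∪ Q')) (h.le_card ((R \ J) ∪ Q'))
    · rw [hco]
      exact q4
  · -- `b ∉ Q`
    have hQS : Q ⊆ S \ R := by
      intro z hz
      exact (mem_insert.1 (q1 hz)).resolve_left (fun t => hbQ (t ▸ hz))
    have hd : Disjoint J Q := by
      rw [disjoint_left]
      intro z hz hz'
      exact (mem_sdiff.1 (hQS hz')).2 (j1 hz)
    have hc' : (J ∪ Q).card = J.card + Q.card := card_union_of_disjoint hd
    have hco : S \ (J ∪ Q) = (R \ J) ∪ ((S \ R) \ Q) := by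
      ext z
      simp only [mem_sdiff, mem_union, not_or]
      constructor
      · rintro ⟨t1, t2, t3⟩
        by_cases t4 : z ∈ R
        · exact Or.inl ⟨t4, t2⟩
        · exact Or.inr ⟨⟨t1, t4⟩, t3⟩
      · rintro (⟨t1, t2⟩ | ⟨⟨t1, t2⟩, t3⟩)
        · exact ⟨hR t1, t2, fun t3 => (mem_sdiff.1 (hQS t3)).2 t1⟩
        · exact ⟨t1, fun t4 => t2 (j1 t4), t3⟩
    rw [union_comm Q J] at q5 q6
    have hcd : (J ∪ Q).card + 1 = f := nc_o hc' j2 q2'
    refine ⟨J ∪ Q, ⟨union_subset hJS (hQS.trans sdiff_subset), hcd, ?_, ?_⟩, q5, q6⟩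
    · exact nc_n hcd q5 (h.insert_le x (J ∪ Q)) (h.le_card (J ∪ Q))
    · rw [hco]
      have t1 := rk_repl h (sdiff_subset (s := R) (t := J)) j4 ((S \ R) \ Q)
      have t2 : (insert b (S \ R) \ Q) ∪ J = insert b J ∪ ((S \ R) \ Q) := by
        ext z
        simp only [mem_sdiff, mem_union, mem_insert]
        constructor
        · rintro (⟨t3 | t3, t4⟩ | t3)
          · exact Or.inl (Or.inl t3)
          · exact Or.inr ⟨t3, t4⟩
          · exact Or.inl (Or.inr t3)
        · rintro ((t3 | t3) | t3)
          · exact Or.inl ⟨Or.inl t3, t3 ▸ hbQ⟩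
          · exact Or.inr t3
          · exact Or.inl ⟨Or.inr t3.1, t3.2⟩
      rw [t2, hJb] at q4
      exact t1.trans q4

/-- No critical flats in a minimal non-adjacent system. -/
theorem no_crit (h : RankFn r) (hadj : ∀ (C : Finset α) (g : ℕ), g < f → Adj (fun X => r (X ∪ C) - r C) g)
    (hS : Rig r S f) (hx : 0 < r {x}) (hy : 0 < r {y}) (hrk : ∀ X ⊆ S ∪ {x, y}, r X ≤ f)
    (hno : ¬ ∃ J, Hl r S f J ∧ r (insert x J) = f ∧ r (insert y J) = f) (hR : R ⊆ S)
    (hc : R.card + 1 = 2 * r R) (h2 : 2 ≤ r R) : r R = f := by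
  have key : ∀ n : ℕ, ∀ R ⊆ S, f - r R = n → R.card + 1 = 2 * r R → 2 ≤ r R → r R = f := by
    intro n
    induction n using Nat.strong_induction_on with
    | _ n ih =>
      intro R hR hn hc h2
      by_contra hne
      have hle := hrk R (hR.trans subset_union_left)
      have hlt : r R < f := by omega
      have hmax : ∀ A ⊆ S, A.card + 1 = 2 * r A → r R < r A → r A = f := by
        intro A hA hAc hAr
        have t1 := hrk A (hA.trans subset_union_left)
        exact ih (f - r A) (by omega) A hA rfl hAc (by omega)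
      apply hno
      by_cases hyR : r (insert y R) = r R
      · by_cases hxR : r (insert x R) = r R
        · refine nocrit_in h ?_ hS hx hy hrk hR hc hxR hyR
          have t1 := hadj ∅ (r R) hlt
          have t2 : (fun X => r (X ∪ ∅) - r ∅) = r := by
            funext X
            rw [union_empty, h.empty, Nat.sub_zero]
          rwa [t2] at t1
        · obtain ⟨J, hJ, h3, h4⟩ := nocrit_out (x := y) (y := x) h hadj hS hy
            (fun X hX => hrk X (by rwa [pair_comm x y])) hR hc h2 hlt hmax hxR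
          exact ⟨J, hJ, h4, h3⟩
      · exact nocrit_out h hadj hS hx hrk hR hc h2 hlt hmax hyR
  exact key _ R hR rfl hc h2

/-- Adjacency in rank at most three, by LEMMA D^1. -/
theorem adj3 (h : RankFn r) (hg : g ≤ 3) : Adj r g := by
  intro S x y hS hx hy hrk
  by_cases hp : r {x, y} ≤ 1
  · -- parallel
    have hSr : g ≤ r (insert x S) := by
      have t0 := hS.card
      rcases S.eq_empty_or_nonempty with he | hne
      · rw [he, card_empty] at t0
        omega
      · have t1 := hS.lt S (Subset.refl S) hne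
        have t2 := h.mono S (insert x S) (subset_insert x S)
        omega
    have t3 := hrk (insert x S) (insert_subset (mem_union_right _ (mem_insert_self x _)) subset_union_left)
    obtain ⟨J, hJ, hJx⟩ := hl_exists h hS hx (by omega)
    refine ⟨J, hJ, hJx, ?_⟩
    by_contra hc
    have hJy : r (insert y J) = r J := by
      by_contra hc'
      exact hc (full_of_ne h hJ hc')
    have t4 : r (insert x {y}) = r {y} := by
      have := h.mono {y} {x, y} (by intro z hz; rw [mem_singleton] at hz; rw [hz]; exact mem_insert_of_mem (mem_singleton_self y))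
      omega
    have t5 : r (insert x (insert y J)) = r (insert y J) := h.mono_insert t4 (by
      intro z hz
      rw [mem_singleton] at hz
      rw [hz]
      exact mem_insert_self y J)
    have t6 := h.mono (insert x J) (insert x (insert y J)) (insert_subset_insert x (subset_insert y J))
    have t7 := hJ.rk
    omega
  · obtain ⟨J, hJ, ⟨x', hx', t1⟩, ⟨y', hy', t2⟩⟩ := lemD1 (K1 := {x}) (K2 := {y}) h hS
      (by intro z hz; rw [mem_singleton] at hz; rw [hz]; exact hx)
      (by intro z hz; rw [mem_singleton] at hz; rw [hz]; exact hy)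
      ⟨x, mem_singleton_self x⟩ ⟨y, mem_singleton_self y⟩
      (by rw [← insert_eq]; omega)
      (by rw [← insert_eq]; exact hrk)
    rw [mem_singleton] at hx' hy'
    rw [hx'] at t1
    rw [hy'] at t2
    exact ⟨J, hJ, t1, t2⟩

/-- (A) of note 3130 : a non-adjacent pair in rank 4 has no critical flats. -/
theorem nocrit4 (h : RankFn r) (hS : Rig r S 4) (hx : 0 < r {x}) (hy : 0 < r {y})
    (hrk : ∀ X ⊆ S ∪ {x, y}, r X ≤ 4)
    (hno : ¬ ∃ J, Hl r S 4 J ∧ r (insert x J) = 4 ∧ r (insert y J) = 4) (hA : A ⊆ S) :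
    (A.card = 2 → r A = 2) ∧ (A.card = 3 → r A = 3) ∧ (A.card = 4 → 3 ≤ r A) ∧ (5 ≤ A.card → r A = 4) := by
  have hadj : ∀ (C : Finset α) (g : ℕ), g < 4 → Adj (fun X => r (X ∪ C) - r C) g := fun C g hg =>
    adj3 (contr_rank h C) (by omega)
  have key : ∀ B ⊆ S, B.card + 1 = 2 * r B → 2 ≤ r B → r B = 4 := fun B hB hc h2 =>
    no_crit h hadj hS hx hy hrk hno hB hc h2
  have hle := hrk A (hA.trans subset_union_left)
  have hlc := h.le_card A
  have hlt : A.Nonempty → A.card + 1 ≤ 2 * r A := fun hn => hS.lt A hA hn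
  refine ⟨fun hc => ?_, fun hc => ?_, fun hc => ?_, fun hc => ?_⟩
  · have := hlt (by rw [← card_pos]; omega)
    omega
  · have t1 := hlt (by rw [← card_pos]; omega)
    by_contra hne
    have := key A hA (by omega) (by omega)
    omega
  · have t1 := hlt (by rw [← card_pos]; omega)
    omega
  · obtain ⟨B, hB, hBc⟩ := exists_subset_card_eq hc
    have t1 := hS.lt B (hB.trans hA) (by rw [← card_pos]; omega)
    have t2 := h.mono B A hB
    by_contra hne
    have := key B (hB.trans hA) (by omega) (by omega)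
    omega

/-- In rank 4 the sets of a completely non-adjacent pair are parallel classes. -/
theorem nap_rk1 {E F M K1 K2 : Finset α} (h : RankFn r) (hN : NAP r E F M S K1 K2) (h4 : r M = r F + 4) :
    r (F ∪ K1) = r F + 1 ∧ r (F ∪ K2) = r F + 1 := by
  have h1 := nap_corank h hN
  have h2 := hN.sk
  obtain ⟨x, hx⟩ := hN.n1
  obtain ⟨y, hy⟩ := hN.n2
  have h3 := rk_ins_ne h (hN.nl x (mem_union_left _ hx))
  have h5 := rk_ins_ne h (hN.nl y (mem_union_right _ hy))
  have h6 := h.mono (insert x F) (F ∪ K1) (insert_subset (mem_union_right _ hx) subset_union_left)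
  have h7 := h.mono (insert y F) (F ∪ K2) (insert_subset (mem_union_right _ hy) subset_union_left)
  omega

/-- (A) of note 3130 for completely non-adjacent pairs of sets. -/
theorem nap_nocrit4 {E F M K1 K2 : Finset α} (h : RankFn r) (hN : NAP r E F M S K1 K2) (h4 : r M = r F + 4) (hA : A ⊆ S) :
    (A.card = 2 → r (A ∪ F) = r F + 2) ∧ (A.card = 3 → r (A ∪ F) = r F + 3) ∧
    (A.card = 4 → r F + 3 ≤ r (A ∪ F)) ∧ (5 ≤ A.card → r (A ∪ F) = r F + 4) := by
  obtain ⟨k1, k2⟩ := nap_rk1 h hN h4
  obtain ⟨x, hx⟩ := hN.n1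
  obtain ⟨y, hy⟩ := hN.n2
  have hFr : ∀ X : Finset α, r F ≤ r (X ∪ F) := fun X => h.mono _ _ subset_union_right
  have x1 := rk_ins_ne h (hN.nl x (mem_union_left _ hx))
  have y1 := rk_ins_ne h (hN.nl y (mem_union_right _ hy))
  have hxM := hN.K1M hx
  have hyM := hN.K2M hy
  have hcard := hN.card
  have hS : Rig (fun X => r (X ∪ F) - r F) S 4 := by
    refine ⟨by omega, fun B hB hn => ?_⟩
    have t1 := hN.rig B hB hn
    have t2 := hFr B
    show B.card + 1 ≤ 2 * (r (B ∪ F) - r F)
    omega
  have hrep : ∀ (K : Finset α) (z w : α), z ∈ K → r (insert z F) = r F + 1 → r (F ∪ K) = r F + 1 → w ∈ K →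
      ∀ J : Finset α, r (insert z (J ∪ F)) = r (J ∪ F) → r (insert w (J ∪ F)) = r (J ∪ F) := by
    intro K z w hz hzF hK hw J hJ
    have t1 : r (insert w (insert z F)) = r (insert z F) := by
      have t2 := h.mono (insert w (insert z F)) (F ∪ K) (insert_subset (mem_union_right _ hw)
        (insert_subset (mem_union_right _ hz) subset_union_left))
      have t3 := h.mono (insert z F) (insert w (insert z F)) (subset_insert _ _)
      omega
    have t2 : r (insert w (insert z (J ∪ F))) = r (insert z (J ∪ F)) :=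
      h.mono_insert t1 (insert_subset_insert z subset_union_right)
    have t3 := h.mono (insert w (J ∪ F)) (insert w (insert z (J ∪ F))) (insert_subset_insert w (subset_insert _ _))
    have t4 := h.mono (J ∪ F) (insert w (J ∪ F)) (subset_insert _ _)
    omega
  have hno : ¬ ∃ J, Hl (fun X => r (X ∪ F) - r F) S 4 J ∧ r (insert x J ∪ F) - r F = 4 ∧
      r (insert y J ∪ F) - r F = 4 := by
    rintro ⟨J, hJ, hJx, hJy⟩
    have j2 := hJ.card
    have j4 : r ((S \ J) ∪ F) - r F = 4 := hJ.co
    have j5 := hFr (S \ J)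
    rw [insert_union] at hJx hJy
    have j6 : r F ≤ r (insert x (J ∪ F)) := h.mono _ _ (subset_union_right.trans (subset_insert _ _))
    have j7 : r F ≤ r (insert y (J ∪ F)) := h.mono _ _ (subset_union_right.trans (subset_insert _ _))
    rcases hN.na J hJ.sub (by omega) (by omega) with t | t
    · exact t x hx (by omega)
    · exact t y hy (by omega)
  have key := nocrit4 (A := A) (contr_rank h F) hS
    (by
      show 0 < r ({x} ∪ F) - r F
      rw [← insert_eq]
      omega)
    (by
      show 0 < r ({y} ∪ F) - r F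
      rw [← insert_eq]
      omega)
    (by
      intro X hX
      show r (X ∪ F) - r F ≤ 4
      have t1 := h.mono (X ∪ F) M (union_subset (fun z hz => by
        rcases mem_union.1 (hX hz) with t | t
        · exact hN.SM t
        · rw [mem_insert, mem_singleton] at t
          rcases t with rfl | rfl
          · exact hxM
          · exact hyM) hN.FM)
      omega)
    hno hA
  obtain ⟨a1, a2, a3, a4⟩ := key
  have t1 := hFr A
  refine ⟨fun hc => ?_, fun hc => ?_, fun hc => ?_, fun hc => ?_⟩
  · have t2 : r (A ∪ F) - r F = 2 := a1 hc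
    omega
  · have t2 : r (A ∪ F) - r F = 3 := a2 hc
    omega
  · have t2 : 3 ≤ r (A ∪ F) - r F := a3 hc
    omega
  · have t2 : r (A ∪ F) - r F = 4 := a4 hc
    omega

end Pool.Agent.EX84
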