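import Pool.Agent.CF98.SplitA
import Pool.Agent.EX84.Defs

/-!
The class of THEOREM EX (problem MP_e6151a_ag), for rank functions.

* `Ex r E` : there are no `I` and `a, a', b, b', z` in `E` such that, modulo `I`, `a, a'` are parallel,
  `b, b'` are parallel and `a, b, z` are independent (a minor `U_{1,2} + U_{1,2} + U_{1,1}`), where
  `a, a'` and `b, b'` are not parallel in `r` itself.
* `Ex.res`, `Ex.con` : the class is closed under restriction and contraction.
* `Ex.span` : for sets `A`, `B`, skew over `F`, loopless and dependent over `F`, without pairs which are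
  parallel in `r`, the union of `F`, `A`, `B` spans.
-/

set_option autoImplicit false

namespace Pool.Agent.EX84

open Finset Pool.Agent.DT3 Pool.Agent.CF98

variable {α : Type*} [DecidableEq α] {r : Finset α → ℕ} {E F A B X : Finset α}

/-- No minor `U_{1,2} + U_{1,2} + U_{1,1}`, up to parallel pairs of `r`. -/
def Ex (r : Finset α → ℕ) (E : Finset α) : Prop :=
  ∀ I ⊆ E, ∀ a ∈ E, ∀ a' ∈ E, ∀ b ∈ E, ∀ b' ∈ E, ∀ z ∈ E,
    r (insert z (insert a (insert b I))) = r I + 3 →
    r (insert a' I) = r I + 1 → r (insert a (insert a' I)) = r I + 1 → r {a, a'} = 2 →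
    r (insert b' I) = r I + 1 → r (insert b (insert b' I)) = r I + 1 → r {b, b'} = 2 → False

theorem Ex.res (h : Ex r E) (hX : X ⊆ E) : Ex r X :=
  fun I hI a ha a' ha' b hb b' hb' z hz =>
    h I (hI.trans hX) a (hX ha) a' (hX ha') b (hX hb) b' (hX hb') z (hX hz)

theorem Ex.con (hr : RankFn r) (h : Ex r E) (hX : X ⊆ E) :
    Ex (fun Y => r (Y ∪ X) - r X) (E \ X) := by
  intro I hI a ha a' ha' b hb b' hb' z hz h1 h2 h3 h4 h5 h6 h7
  have hs : E \ X ⊆ E := sdiff_subset
  have hm : ∀ Y : Finset α, r X ≤ r (Y ∪ X) := fun Y => hr.mono _ _ subset_union_right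
  have e : ∀ (x : α) (Y : Finset α), insert x Y ∪ X = insert x (Y ∪ X) := fun x Y =>
    insert_union x Y X
  have par : ∀ x y : α, r ({x, y} ∪ X) - r X = 2 → r {x, y} = 2 := by
    intro x y hxy
    have g1 := hr.submod {x, y} X
    have g2 := hr.le_card {x, y}
    have g3 : ({x, y} : Finset α).card ≤ 2 := card_le_two
    omega
  refine h (I ∪ X) (union_subset (hI.trans hs) hX) a (hs ha) a' (hs ha') b (hs hb) b' (hs hb')
    z (hs hz) ?_ ?_ ?_ (par a a' h4) ?_ ?_ (par b b' h7)
  · have g0 := hm I
    have g1 := hm (insert z (insert a (insert b I)))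
    simp only [e] at h1 g1
    omega
  · have g0 := hm I
    have g1 := hm (insert a' I)
    simp only [e] at h2 g1
    omega
  · have g0 := hm I
    have g1 := hm (insert a (insert a' I))
    simp only [e] at h3 g1
    omega
  · have g0 := hm I
    have g1 := hm (insert b' I)
    simp only [e] at h5 g1
    omega
  · have g0 := hm I
    have g1 := hm (insert b (insert b' I))
    simp only [e] at h6 g1
    omega

/-- Skewness of subsets. -/
theorem sk_sub (hr : RankFn r) {A' B' : Finset α} (hA : A' ⊆ A) (hB : B' ⊆ B)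
    (h : Sk r A B F) : Sk r A' B' F := by
  unfold Sk at h ⊢
  -- first shrink `A`
  have step : ∀ {A A' B : Finset α}, A' ⊆ A →
      r (F ∪ A) + r (F ∪ B) = r (F ∪ (A ∪ B)) + r F →
      r (F ∪ A') + r (F ∪ B) = r (F ∪ (A' ∪ B)) + r F := by
    intro A A' B hA h
    have h1 := hr.submod (F ∪ A) (F ∪ (A' ∪ B))
    have e1 : F ∪ A ∪ (F ∪ (A' ∪ B)) = F ∪ (A ∪ B) := by
      ext x
      simp only [mem_union]
      have := @hA x
      tauto
    have h2 : r (F ∪ A') ≤ r ((F ∪ A) ∩ (F ∪ (A' ∪ B))) := by
      apply hr.mono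
      intro x
      simp only [mem_union, mem_inter]
      have := @hA x
      tauto
    have h3 := hr.submod (F ∪ A') (F ∪ B)
    have e2 : F ∪ A' ∪ (F ∪ B) = F ∪ (A' ∪ B) := by
      ext x
      simp only [mem_union]
      tauto
    have h4 : r F ≤ r ((F ∪ A') ∩ (F ∪ B)) := by
      apply hr.mono
      intro x
      simp only [mem_union, mem_inter]
      tauto
    rw [e1] at h1
    rw [e2] at h3
    omega
  have h1 := step (B := B) hA h
  have h2 : r (F ∪ B) + r (F ∪ A') = r (F ∪ (B ∪ A')) + r F := by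
    rw [union_comm B A', ← h1, Nat.add_comm]
  have h3 := step (B := A') hB h2
  rw [union_comm B' A', Nat.add_comm] at h3
  exact h3

/-- A minimal dependent subset (over `F`). -/
theorem exMin (hr : RankFn r) (hd : r (F ∪ A) < r F + A.card) :
    ∃ C ⊆ A, r (F ∪ C) + 1 = r F + C.card ∧ ∀ c ∈ C, r (F ∪ C.erase c) + 1 = r F + C.card := by
  classical
  have hne : (A.powerset.filter fun C => r (F ∪ C) < r F + C.card).Nonempty :=
    ⟨A, by rw [mem_filter]; exact ⟨mem_powerset_self A, hd⟩⟩
  obtain ⟨C, hC, hmin⟩ := exists_min_image _ card hne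
  rw [mem_filter, mem_powerset] at hC
  have key : ∀ c ∈ C, r (F ∪ C.erase c) + 1 = r F + C.card := by
    intro c hc
    have h1 : ¬ r (F ∪ C.erase c) < r F + (C.erase c).card := by
      intro h2
      have h3 := hmin (C.erase c) (by
        rw [mem_filter, mem_powerset]
        exact ⟨(erase_subset c C).trans hC.1, h2⟩)
      have h4 := card_erase_lt_of_mem hc
      omega
    have h2 := card_erase_add_one hc
    have h3 := hr.mono (F ∪ C.erase c) (F ∪ C) (union_subset_union_right (erase_subset c C))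
    omega
  refine ⟨C, hC.1, ?_, key⟩
  rcases C.eq_empty_or_nonempty with h0 | ⟨c, hc⟩
  · exfalso
    rw [h0, union_empty, card_empty] at hC
    omega
  · have h1 := key c hc
    have h2 := hr.mono (F ∪ C.erase c) (F ∪ C) (union_subset_union_right (erase_subset c C))
    omega

/-- An element outside the span. -/
theorem exOut (hr : RankFn r) {W : Finset α} (hW : W ⊆ E) (h : r W ≠ r E) :
    ∃ z ∈ E, r (insert z W) = r W + 1 := by
  by_contra hc
  push Not at hc
  apply h
  have h1 : clo r E W = E := by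
    refine Subset.antisymm (filter_subset _ _) fun z hz => ?_
    rw [clo, mem_filter]
    refine ⟨hz, ?_⟩
    have h2 := hc z hz
    rcases hr.insert_eq z W with h3 | h3
    · exact h3
    · exact absurd h3 h2
  rw [← rank_clo hr hW, h1]

/-- The main use of the class. -/
theorem Ex.span (hr : RankFn r) (h : Ex r E) (hF : F ⊆ E) (hA : A ⊆ E) (hB : B ⊆ E)
    (lA : ∀ a ∈ A, r (insert a F) ≠ r F) (lB : ∀ b ∈ B, r (insert b F) ≠ r F)
    (dA : r (F ∪ A) < r F + A.card) (dB : r (F ∪ B) < r F + B.card)
    (pA : ∀ a ∈ A, ∀ a' ∈ A, a ≠ a' → r {a, a'} = 2)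
    (pB : ∀ b ∈ B, ∀ b' ∈ B, b ≠ b' → r {b, b'} = 2)
    (hs : Sk r A B F) : r (F ∪ (A ∪ B)) = r E := by
  by_contra hne
  obtain ⟨C, hC, hC1, hC2⟩ := exMin hr dA
  obtain ⟨D, hD, hD1, hD2⟩ := exMin hr dB
  -- two elements in each
  have two : ∀ {S G : Finset α}, S ⊆ G → (∀ a ∈ G, r (insert a F) ≠ r F) →
      r (F ∪ S) + 1 = r F + S.card → ∃ a ∈ S, ∃ a' ∈ S, a ≠ a' := by
    intro S G hSG hl h1
    have h2 : 1 < S.card := by
      by_contra h3
      have h5 := hr.mono F (F ∪ S) subset_union_left
      have h6 : S.card = 1 := by omega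
      obtain ⟨s, hs⟩ := card_eq_one.1 h6
      have h7 : s ∈ S := by rw [hs]; exact mem_singleton_self s
      apply hl s (hSG h7)
      have h8 : insert s F = F ∪ S := by
        rw [hs]
        ext x
        simp only [mem_insert, mem_union, mem_singleton]
        tauto
      rw [h8]
      omega
    obtain ⟨a, ha, a', ha', hne⟩ := one_lt_card.1 h2
    exact ⟨a, ha, a', ha', hne⟩
  obtain ⟨a, ha, a', ha', haa⟩ := two hC lA hC1
  obtain ⟨b, hb, b', hb', hbb⟩ := two hD lB hD1
  have hW : F ∪ (A ∪ B) ⊆ E := union_subset hF (union_subset hA hB)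
  obtain ⟨z, hz, hz1⟩ := exOut hr hW hne
  set J : Finset α := (C.erase a).erase a' with hJ
  set K : Finset α := (D.erase b).erase b' with hK
  have hJC : J ⊆ C := (erase_subset _ _).trans (erase_subset _ _)
  have hKD : K ⊆ D := (erase_subset _ _).trans (erase_subset _ _)
  -- ranks over `F` for subsets of `C` and `D`
  have ins : ∀ {S : Finset α} {s t : α}, s ∈ S → t ∈ S → s ≠ t →
      r (F ∪ S) + 1 = r F + S.card → (∀ c ∈ S, r (F ∪ S.erase c) + 1 = r F + S.card) →
      r (F ∪ (S.erase s).erase t) + 2 = r F + S.card ∧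
      r (F ∪ insert s ((S.erase s).erase t)) + 1 = r F + S.card ∧
      r (F ∪ insert t ((S.erase s).erase t)) + 1 = r F + S.card ∧
      r (F ∪ insert s (insert t ((S.erase s).erase t))) + 1 = r F + S.card := by
    intro S s t hs ht hst h1 h2
    have e1 : insert t ((S.erase s).erase t) = S.erase s :=
      insert_erase (mem_erase.2 ⟨hst.symm, ht⟩)
    have e2 : insert s ((S.erase s).erase t) = S.erase t := by
      rw [erase_right_comm]
      exact insert_erase (mem_erase.2 ⟨hst, hs⟩)
    have h3 := h2 s hs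
    have h4 := h2 t ht
    have h5 : r (F ∪ insert t ((S.erase s).erase t)) ≤ r (F ∪ (S.erase s).erase t) + 1 := by
      rw [union_insert]
      exact hr.insert_le _ _
    have h6 : r (F ∪ (S.erase s).erase t) ≤ r F + ((S.erase s).erase t).card := by
      have h7 := hr.submod F ((S.erase s).erase t)
      have h8 := hr.le_card ((S.erase s).erase t)
      omega
    have h7 : ((S.erase s).erase t).card + 2 = S.card := by
      have h8 := card_erase_add_one (mem_erase.2 ⟨hst.symm, ht⟩ : t ∈ S.erase s)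
      have h9 := card_erase_add_one hs
      omega
    rw [e1] at h5 ⊢
    rw [e2, insert_erase hs]
    refine ⟨by omega, h4, h3, h1⟩
  obtain ⟨c1, c2, c3, c4⟩ := ins ha ha' haa hC1 hC2
  obtain ⟨d1, d2, d3, d4⟩ := ins hb hb' hbb hD1 hD2
  rw [← hJ] at c1 c2 c3 c4
  rw [← hK] at d1 d2 d3 d4
  -- skewness
  have hsk : ∀ {S T : Finset α}, S ⊆ C → T ⊆ D →
      r (F ∪ S) + r (F ∪ T) = r (F ∪ (S ∪ T)) + r F := fun hS hT =>
    sk_sub hr (hS.trans hC) (hT.trans hD) hs
  have haC : insert a J ⊆ C := insert_subset ha hJC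
  have haC' : insert a' J ⊆ C := insert_subset ha' hJC
  have haaC : insert a (insert a' J) ⊆ C := insert_subset ha haC'
  have hbD : insert b K ⊆ D := insert_subset hb hKD
  have hbD' : insert b' K ⊆ D := insert_subset hb' hKD
  have hbbD : insert b (insert b' K) ⊆ D := insert_subset hb hbD'
  have s0 := hsk hJC hKD
  have s1 := hsk haC hbD
  have s2 := hsk haC' hKD
  have s3 := hsk haaC hKD
  have s4 := hsk hJC hbD'
  have s5 := hsk hJC hbbD
  set I : Finset α := F ∪ (J ∪ K) with hI
  have q1 : F ∪ (insert a J ∪ insert b K) = insert a (insert b I) := by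
    rw [hI]; ext x; simp only [mem_union, mem_insert]; tauto
  have q2 : F ∪ (insert a' J ∪ K) = insert a' I := by
    rw [hI]; ext x; simp only [mem_union, mem_insert]; tauto
  have q3 : F ∪ (insert a (insert a' J) ∪ K) = insert a (insert a' I) := by
    rw [hI]; ext x; simp only [mem_union, mem_insert]; tauto
  have q4 : F ∪ (J ∪ insert b' K) = insert b' I := by
    rw [hI]; ext x; simp only [mem_union, mem_insert]; tauto
  have q5 : F ∪ (J ∪ insert b (insert b' K)) = insert b (insert b' I) := by
    rw [hI]; ext x; simp only [mem_union, mem_insert]; tauto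
  rw [q1] at s1
  rw [q2] at s2
  rw [q3] at s3
  rw [q4] at s4
  rw [q5] at s5
  have hIW : insert a (insert b I) ⊆ F ∪ (A ∪ B) := by
    rw [← q1]
    exact union_subset_union_right (union_subset_union (haC.trans hC) (hbD.trans hD))
  have hz2 : r (insert z (insert a (insert b I))) = r (insert a (insert b I)) + 1 := by
    rcases hr.insert_eq z (insert a (insert b I)) with h1 | h1
    · exfalso
      have h2 := hr.mono_insert h1 hIW
      omega
    · exact h1
  have hIE : I ⊆ E := (subset_insert _ _).trans ((subset_insert _ _).trans (hIW.trans hW))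
  refine h I hIE a (hA (hC ha)) a' (hA (hC ha')) b (hB (hD hb)) b' (hB (hD hb')) z hz
    ?_ ?_ ?_ (pA a (hC ha) a' (hC ha') haa) ?_ ?_ (pB b (hD hb) b' (hD hb') hbb)
  · omega
  · omega
  · omega
  · omega
  · omega

/-- The form used in the proof. -/
theorem Ex.star (hr : RankFn r) (h : Ex r E) {f : ℕ} (hf : r E = f) : Star r E f := by
  intro F hF K1 hK1 K2 hK2 n1 n2 p1 p2 hl c1 c2 hs
  have dep : ∀ {K : Finset α}, K.Nonempty → (∀ x ∈ K, r (F ∪ K.erase x) = r (F ∪ K)) →
      r (F ∪ K) < r F + K.card := by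
    rintro K ⟨x, hx⟩ hc
    have h1 := hr.submod F (K.erase x)
    have h2 := hr.le_card (K.erase x)
    have h3 := card_erase_add_one hx
    have h4 := hc x hx
    omega
  have h1 := h.span hr hF hK1 hK2 (fun a ha => hl a (mem_union_left _ ha))
    (fun b hb => hl b (mem_union_right _ hb)) (dep n1 c1) (dep n2 c2) p1 p2 hs
  rw [h1, hf]

end Pool.Agent.EX84
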