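import Pool.Agent.WT59.Skew
import Pool.Agent.WT59.DisjA

/-!
Real adjacency beyond (T*) for two holes in a rigid set (notes 2848 of MP_e6151a_ag, helper35).

`S` is rigid of rank `f`: `|S| = 2 f - 1` and `|A| ≤ 2 r A - 1` for nonempty `A ⊆ S`.  `Hl r S f J`: `J ⊆ S` is independent with `f - 1`
elements and `S \ J` is a basis.

* `tss`: a nonempty family of such `J`, closed under exchanging `J` for `(S \ J) - e`, has for every non-loop `x` a member whose span
  does not contain `x`.
* `lemD`: if `K1 ∪ K2` is spanning then some `J` spans neither some `x ∈ K1` nor some `y ∈ K2`.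
-/

set_option autoImplicit false

namespace Pool.Agent.EX84

open Finset Pool.Agent.DT3 Pool.Agent.CF98 Pool.Agent.WT59

variable {α : Type*} [DecidableEq α] {r : Finset α → ℕ} {S J Q B C X Y K1 K2 : Finset α} {f : ℕ} {x e : α}

/-- `J` is an independent set with `f - 1` elements whose complement in `S` is a basis. -/
structure Hl (r : Finset α → ℕ) (S : Finset α) (f : ℕ) (J : Finset α) : Prop where
  sub : J ⊆ S
  card : J.card + 1 = f
  rk : r J + 1 = f
  co : r (S \ J) = f

/-- `S` is rigid of rank `f`. -/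
structure Rig (r : Finset α → ℕ) (S : Finset α) (f : ℕ) : Prop where
  card : S.card + 1 = 2 * f
  lt : ∀ A ⊆ S, A.Nonempty → A.card + 1 ≤ 2 * r A

theorem cl_inter (h : RankFn r) (hB : r B = B.card) (hX : X ⊆ B) (hY : Y ⊆ B) (hx : x ∉ B)
    (h1 : r (insert x X) = r X) (h2 : r (insert x Y) = r Y) :
    r (insert x (X ∩ Y)) = r (X ∩ Y) := by
  have h3 := h.submod (insert x X) (insert x Y)
  have e1 : insert x X ∪ insert x Y = insert x (X ∪ Y) := by
    ext z; simp only [mem_union, mem_insert]; tauto
  have e2 : insert x X ∩ insert x Y = insert x (X ∩ Y) := by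
    ext z
    simp only [mem_inter, mem_insert]
    tauto
  rw [e1, e2, h1, h2] at h3
  have i1 := ind_sub h hB hX
  have i2 := ind_sub h hB hY
  have i3 := ind_sub h hB (union_subset hX hY)
  have i4 := ind_sub h hB ((inter_subset_left (s₁ := X) (s₂ := Y)).trans hX)
  have h4 := h.mono _ _ (subset_insert x (X ∪ Y))
  have h5 := h.mono _ _ (subset_insert x (X ∩ Y))
  have h6 := card_union_add_card_inter X Y
  omega

theorem cl_mono (h : RankFn r) (hXY : X ⊆ Y) (h1 : r (insert x X) = r X) : r (insert x Y) = r Y :=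
  h.mono_insert h1 hXY

/-- The elements of `J` which are needed to span `x`. -/
def sp (r : Finset α → ℕ) (J : Finset α) (x : α) : Finset α :=
  J.filter fun t => r (insert x (J.erase t)) ≠ r (J.erase t)

theorem mem_sp {t : α} : t ∈ sp r J x ↔ t ∈ J ∧ r (insert x (J.erase t)) ≠ r (J.erase t) := mem_filter

theorem sp_sub : sp r J x ⊆ J := filter_subset _ _

theorem sp_span (h : RankFn r) (hJ : r J = J.card) (hx : x ∉ J) (hxJ : r (insert x J) = r J) :
    r (insert x (sp r J x)) = r (sp r J x) := by
  have h1 := ins_inter h (B := J) (W := J \ sp r J x) (p := x) hJ hx sdiff_subset hxJ (by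
    intro q hq
    have hq' := mem_sdiff.1 hq
    by_contra hc
    exact hq'.2 (mem_sp.2 ⟨hq'.1, hc⟩))
  rwa [Finset.sdiff_sdiff_eq_self sp_sub] at h1

/-- An element needed to span `x` in `J` is needed in every independent set containing `sp r J x`. -/
theorem sp_need (h : RankFn r) (hJ : r J = J.card) (hx : x ∉ J) (hxJ : r (insert x J) = r J)
    (hB : r B = B.card) (hC : sp r J x ⊆ B) (hxB : x ∉ B) (he : e ∈ sp r J x) :
    r (insert x (B.erase e)) ≠ r (B.erase e) := by
  intro hc
  have h1 := cl_inter h hB (erase_subset e B) hC hxB hc (sp_span h hJ hx hxJ)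
  have h2 : B.erase e ∩ sp r J x ⊆ J.erase e := by
    intro z hz
    rw [mem_inter, mem_erase] at hz
    exact mem_erase.2 ⟨hz.1.1, sp_sub hz.2⟩
  exact (mem_sp.1 he).2 (cl_mono h h2 h1)

theorem Hl.ind (hJ : Hl r S f J) : r J = J.card := by
  have h1 := hJ.card; have h2 := hJ.rk; omega

theorem Hl.co_card (hS : Rig r S f) (hJ : Hl r S f J) : (S \ J).card = f := by
  have h1 := card_sdiff_add_card_eq_card hJ.sub
  have h2 := hS.card
  have h3 := hJ.card
  omega

/-- The exchange of `J` for `(S \ J) - e`. -/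
theorem Hl.move (h : RankFn r) (hS : Rig r S f) (hJ : Hl r S f J) (he : e ∈ S \ J)
    (hr : r (insert e J) = f) :
    Hl r S f ((S \ J).erase e) ∧ S \ ((S \ J).erase e) = insert e J := by
  have he' := mem_sdiff.1 he
  have e1 : S \ ((S \ J).erase e) = insert e J := by
    ext z
    simp only [mem_sdiff, mem_erase, mem_insert]
    constructor
    · rintro ⟨h1, h2⟩
      by_cases hz : z = e
      · exact Or.inl hz
      · right
        by_contra h3
        exact h2 ⟨hz, h1, h3⟩
    · rintro (rfl | h1)
      · exact ⟨he'.1, fun h => h.1 rfl⟩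
      · exact ⟨hJ.sub h1, fun h => h.2.2 h1⟩
  have h1 := hJ.co_card hS
  have h2 : r (S \ J) = (S \ J).card := by rw [h1, hJ.co]
  have h3 := ind_sub h h2 (erase_subset e (S \ J))
  have h4 := card_erase_of_mem he
  have h5 : 0 < (S \ J).card := card_pos.2 ⟨e, he⟩
  refine ⟨⟨(erase_subset _ _).trans sdiff_subset, by omega, by omega, ?_⟩, e1⟩
  rw [e1, hr]

/-- A step of the exchange graph. -/
def Ed (r : Finset α → ℕ) (S : Finset α) (f : ℕ) (J Q : Finset α) : Prop :=
  ∃ e ∈ S \ J, r (insert e J) = f ∧ Q = (S \ J).erase e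

/-- Reachability. -/
def Rc (r : Finset α → ℕ) (S : Finset α) (f : ℕ) : Finset α → Finset α → Prop :=
  Relation.ReflTransGen (Ed r S f)

theorem Rc.hl (h : RankFn r) (hS : Rig r S f) (hJ : Hl r S f J) (hQ : Rc r S f J Q) : Hl r S f Q := by
  induction hQ with
  | refl => exact hJ
  | tail _ h2 ih =>
    obtain ⟨e, he, hr, rfl⟩ := h2
    exact (ih.move h hS he hr).1

theorem Rc.symm (h : RankFn r) (hS : Rig r S f) (hJ : Hl r S f J) (hQ : Rc r S f J Q) : Rc r S f Q J := by
  induction hQ with
  | refl => exact Relation.ReflTransGen.refl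
  | @tail P R h1 h2 ih =>
    have hP : Hl r S f P := Rc.hl h hS hJ h1
    obtain ⟨e, he, hr, rfl⟩ := h2
    obtain ⟨h3, h4⟩ := hP.move h hS he hr
    have he' := mem_sdiff.1 he
    refine Relation.ReflTransGen.head ⟨e, ?_, ?_, ?_⟩ ih
    · rw [h4]; exact mem_insert_self e P
    · rw [insert_erase he]; exact hP.co
    · rw [h4, erase_insert he'.2]

/-- The elements which never move. -/
def Frz (r : Finset α → ℕ) (S : Finset α) (f : ℕ) (J : Finset α) (s : α) : Prop :=
  s ∈ S ∧ ∀ Q, Rc r S f J Q → s ∉ Q → r (insert s Q) ≠ f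

theorem full_of_ne (h : RankFn r) (hJ : Hl r S f J) (hx : r (insert x J) ≠ r J) : r (insert x J) = f := by
  have h1 := rk_ins_ne h hx
  have h2 := hJ.rk
  omega

theorem not_full (hJ : Hl r S f J) (hx : r (insert x J) = r J) : r (insert x J) ≠ f := by
  have h2 := hJ.rk
  omega

/-- The needed elements of an element which is always spanned, or which is frozen, are frozen. -/
theorem frz_sp (h : RankFn r) (hS : Rig r S f) (hJ : Hl r S f J)
    (hx : x ∉ J) (hfr : (x ∉ S ∧ ∀ Q, Rc r S f J Q → r (insert x Q) ≠ f) ∨ Frz r S f J x)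
    {t : α} (ht : t ∈ sp r J x) : Frz r S f J t := by
  have hxJ : r (insert x J) = r J := by
    by_contra hc
    have h1 := full_of_ne h hJ hc
    rcases hfr with h2 | h2
    · exact h2.2 J Relation.ReflTransGen.refl h1
    · exact h2.2 J Relation.ReflTransGen.refl hx h1
  -- the invariant
  have inv : ∀ Q, Rc r S f J Q → (x ∉ Q ∧ sp r J x ⊆ Q) ∨
      (x ∉ S \ Q ∧ sp r J x ⊆ S \ Q) := by
    intro Q hQ
    induction hQ with
    | refl => exact Or.inl ⟨hx, sp_sub⟩
    | @tail P R h1 h2 ih =>
      have hP : Hl r S f P := Rc.hl h hS hJ h1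
      obtain ⟨e, he, hr, rfl⟩ := h2
      obtain ⟨h3, h4⟩ := hP.move h hS he hr
      have he' := mem_sdiff.1 he
      rcases ih with ⟨i1, i2⟩ | ⟨i1, i2⟩
      · right
        rw [h4]
        refine ⟨?_, fun z hz => mem_insert_of_mem (i2 hz)⟩
        intro hc
        rcases mem_insert.1 hc with hc | hc
        · subst hc
          rcases hfr with h5 | h5
          · exact h5.1 he'.1
          · exact h5.2 P h1 i1 hr
        · exact i1 hc
      · left
        have hn : e ∉ sp r J x := by
          intro hc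
          have h5 : r (S \ P) = (S \ P).card := by rw [hP.co_card hS, hP.co]
          have h6 := sp_need h hJ.ind hx hxJ h5 i2 i1 hc
          have h7 := full_of_ne h h3 h6
          have h8 : Rc r S f J ((S \ P).erase e) := Relation.ReflTransGen.tail h1 ⟨e, he, hr, rfl⟩
          rcases hfr with h9 | h9
          · exact h9.2 _ h8 h7
          · refine h9.2 _ h8 ?_ h7
            intro hc'
            exact i1 (mem_of_mem_erase hc')
        refine ⟨fun hc => i1 (mem_of_mem_erase hc), fun z hz => mem_erase.2 ⟨?_, i2 hz⟩⟩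
        rintro rfl
        exact hn hz
  refine ⟨hJ.sub (sp_sub ht), fun Q hQ htQ hr => ?_⟩
  have hQl := Rc.hl h hS hJ hQ
  have htS : t ∈ S \ Q := mem_sdiff.2 ⟨hJ.sub (sp_sub ht), htQ⟩
  rcases inv Q hQ with ⟨_, i2⟩ | ⟨i1, i2⟩
  · exact htQ (i2 ht)
  · have h5 : r (S \ Q) = (S \ Q).card := by rw [hQl.co_card hS, hQl.co]
    have h6 := sp_need h hJ.ind hx hxJ h5 i2 i1 ht
    have h3 := (hQl.move h hS htS hr).1
    have h7 := full_of_ne h h3 h6
    have h8 : Rc r S f J ((S \ Q).erase t) := Relation.ReflTransGen.tail hQ ⟨t, htS, hr, rfl⟩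
    rcases hfr with h9 | h9
    · exact h9.2 _ h8 h7
    · refine h9.2 _ h8 ?_ h7
      intro hc'
      exact i1 (mem_of_mem_erase hc')

theorem frz_rc (h : RankFn r) (hS : Rig r S f) (hJ : Hl r S f J) (hQ : Rc r S f J Q) {s : α}
    (hs : Frz r S f J s) : Frz r S f Q s :=
  ⟨hs.1, fun R hR hsR => hs.2 R (Relation.ReflTransGen.trans hQ hR) hsR⟩

theorem frz_rc' (h : RankFn r) (hS : Rig r S f) (hJ : Hl r S f J) (hQ : Rc r S f J Q) {s : α}
    (hs : Frz r S f Q s) : Frz r S f J s :=
  ⟨hs.1, fun R hR hsR => hs.2 R (Relation.ReflTransGen.trans (Rc.symm h hS hJ hQ) hR) hsR⟩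

/-- The rank of a set `W` of frozen elements closed under `sp` is `|J ∩ W|`. -/
theorem frz_rank (h : RankFn r) (hS : Rig r S f) (hJ : Hl r S f J) {W : Finset α}
    (hW : ∀ s, s ∈ W ↔ Frz r S f J s) : r W = (J ∩ W).card := by
  have h1 : r (J ∩ W ∪ W) = r (J ∩ W) := by
    apply rk_union_eq h
    intro s hs
    by_cases hsJ : s ∈ J
    · rw [insert_eq_of_mem (mem_inter.2 ⟨hsJ, hs⟩)]
    · have hsf := (hW s).1 hs
      have h2 : r (insert s J) = r J := by
        by_contra hc
        exact hsf.2 J Relation.ReflTransGen.refl hsJ (full_of_ne h hJ hc)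
      have h3 := sp_span h hJ.ind hsJ h2
      refine cl_mono h ?_ h3
      intro t ht
      exact mem_inter.2 ⟨sp_sub ht, (hW t).2 (frz_sp h hS hJ hsJ (Or.inr hsf) ht)⟩
  have h2 : J ∩ W ∪ W = W := by
    ext z; simp only [mem_union, mem_inter]; tauto
  rw [h2] at h1
  rw [h1]
  exact ind_sub h hJ.ind inter_subset_left

theorem frz_none (h : RankFn r) (hS : Rig r S f) (hJ : Hl r S f J) (s : α) : ¬ Frz r S f J s := by
  classical
  intro hs
  set W : Finset α := S.filter fun s => Frz r S f J s with hWd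
  have hW : ∀ s, s ∈ W ↔ Frz r S f J s := by
    intro s
    rw [hWd, mem_filter]
    exact ⟨fun h => h.2, fun h => ⟨h.1, h⟩⟩
  have h1 := frz_rank h hS hJ hW
  -- a move
  obtain ⟨e, he, hr⟩ : ∃ e ∈ S \ J, r (insert e J) = f := by
    by_contra hcon
    push Not at hcon
    have h2 : r (J ∪ (S \ J)) = r J := by
      apply rk_union_eq h
      intro z hz
      by_contra hc
      exact hcon z hz (full_of_ne h hJ hc)
    have h3 := h.mono (S \ J) (J ∪ (S \ J)) subset_union_right
    have h4 := hJ.co
    have h5 := hJ.rk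
    omega
  obtain ⟨h3, h4⟩ := hJ.move h hS he hr
  have he' := mem_sdiff.1 he
  have hR : Rc r S f J ((S \ J).erase e) := Relation.ReflTransGen.single ⟨e, he, hr, rfl⟩
  have hW' : ∀ s, s ∈ W ↔ Frz r S f ((S \ J).erase e) s := by
    intro s
    rw [hW]
    exact ⟨frz_rc h hS hJ hR, frz_rc' h hS hJ hR⟩
  have h5 := frz_rank h hS h3 hW'
  have heW : e ∉ W := by
    intro hc
    exact ((hW e).1 hc).2 J Relation.ReflTransGen.refl he'.2 hr
  have h6 : (S \ J).erase e ∩ W = W \ J := by
    ext z
    simp only [mem_inter, mem_erase, mem_sdiff]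
    constructor
    · rintro ⟨⟨_, _, h7⟩, h8⟩
      exact ⟨h8, h7⟩
    · rintro ⟨h7, h8⟩
      exact ⟨⟨fun h9 => heW (h9 ▸ h7), ((hW z).1 h7).1, h8⟩, h7⟩
  rw [h6] at h5
  have h7 : (W \ J).card + (J ∩ W).card = W.card := by
    rw [inter_comm J W]
    exact card_sdiff_add_card_inter W J
  have h8 := hS.lt W (fun z hz => ((hW z).1 hz).1) ⟨s, (hW s).2 hs⟩
  omega

/-- T**: no element except loops is spanned by all members of a class. -/
theorem tss (h : RankFn r) (hS : Rig r S f) (hJ : Hl r S f J) (hl : 0 < r {x}) :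
    ∃ Q, Rc r S f J Q ∧ Hl r S f Q ∧ r (insert x Q) = f := by
  by_cases hx : x ∈ S
  · by_contra hcon
    push Not at hcon
    exact frz_none h hS hJ x ⟨hx, fun Q hQ _ => hcon Q hQ (Rc.hl h hS hJ hQ)⟩
  by_contra hcon
  push Not at hcon
  have hxJ : x ∉ J := fun hc => hx (hJ.sub hc)
  have hfr : ∀ Q, Rc r S f J Q → r (insert x Q) ≠ f := fun Q hQ =>
    hcon Q hQ (Rc.hl h hS hJ hQ)
  have h1 : r (insert x J) = r J := by
    by_contra hc
    exact hfr J Relation.ReflTransGen.refl (full_of_ne h hJ hc)
  have h2 := sp_span h hJ.ind hxJ h1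
  have h3 : sp r J x = ∅ := by
    apply eq_empty_of_forall_notMem
    intro t ht
    exact frz_none h hS hJ t (frz_sp h hS hJ hxJ (Or.inl ⟨hx, hfr⟩) ht)
  rw [h3, insert_empty_eq, h.empty] at h2
  omega

/-- One type of `J` is impossible. -/
private theorem lemD_aux (h : RankFn r) (hS : Rig r S f)
    (hl2 : ∀ x ∈ K2, 0 < r {x}) (hn2 : K2.Nonempty)
    (hsp : r (K1 ∪ K2) = f) (hrk : ∀ X ⊆ S ∪ (K1 ∪ K2), r X ≤ f)
    (hno : ∀ J, Hl r S f J → (∀ x ∈ K1, r (insert x J) = r J) ∨ (∀ x ∈ K2, r (insert x J) = r J))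
    (hJ : Hl r S f J) (hJ2 : ∀ x ∈ K2, r (insert x J) = r J) : False := by
  classical
  -- no `J` has both types
  have hboth : ∀ Q, Hl r S f Q → (∀ x ∈ K1, r (insert x Q) = r Q) →
      (∀ x ∈ K2, r (insert x Q) = r Q) → False := by
    intro Q hQ h1 h2
    have h3 : r (Q ∪ (K1 ∪ K2)) = r Q := by
      apply rk_union_eq h
      intro x hx
      rcases mem_union.1 hx with hx | hx
      · exact h1 x hx
      · exact h2 x hx
    have h4 := h.mono (K1 ∪ K2) (Q ∪ (K1 ∪ K2)) subset_union_right
    have h5 := hQ.rk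
    omega
  have hstep : ∀ Q, Rc r S f J Q → ∀ x ∈ K2, r (insert x Q) = r Q := by
    intro Q hQ
    induction hQ with
    | refl => exact hJ2
    | @tail P R h1 h2 ih =>
      have hP : Hl r S f P := Rc.hl h hS hJ h1
      obtain ⟨e, he, hr, rfl⟩ := h2
      set B : Finset α := S \ P with hBd
      have hBc : B.card = f := hP.co_card hS
      have hBr : r B = f := hP.co
      have hBi : r B = B.card := by rw [hBc, hBr]
      set D1 : Finset α := B.filter fun z => r (insert z P) = f ∧ ∀ x ∈ K1, r (insert x (B.erase z)) = r (B.erase z)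
        with hD1
      set D2 : Finset α := B.filter fun z => r (insert z P) = f ∧ ∀ x ∈ K2, r (insert x (B.erase z)) = r (B.erase z)
        with hD2
      have hmv : ∀ z ∈ B, r (insert z P) = f → Hl r S f (B.erase z) := fun z hz hz' =>
        (hP.move h hS hz hz').1
      have hdis : ∀ z ∈ D1, z ∉ D2 := by
        intro z hz hz'
        rw [hD1, mem_filter] at hz
        rw [hD2, mem_filter] at hz'
        exact hboth _ (hmv z hz.1 hz.2.1) hz.2.2 hz'.2.2
      have hcov : ∀ z ∈ B, r (insert z P) = f → z ∈ D1 ∨ z ∈ D2 := by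
        intro z hz hz'
        rcases hno _ (hmv z hz hz') with h3 | h3
        · left; rw [hD1, mem_filter]; exact ⟨hz, hz', h3⟩
        · right; rw [hD2, mem_filter]; exact ⟨hz, hz', h3⟩
      have hD1B : D1 ⊆ B := filter_subset _ _
      have hD2B : D2 ⊆ B := filter_subset _ _
      -- a member of `B` spanned by `B - q` for all `q` in `D` is outside `D`
      have hout : ∀ (D : Finset α) (x : α), x ∈ B → (∀ q ∈ D, r (insert x (B.erase q)) = r (B.erase q)) →
          r (insert x (B \ D)) = r (B \ D) := by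
        intro D x hxB hq
        have hxD : x ∉ D := by
          intro hxD
          have h3 := hq x hxD
          rw [insert_erase hxB] at h3
          have h4 := ind_sub h hBi (erase_subset x B)
          have h5 := card_erase_add_one hxB
          omega
        rw [insert_eq_of_mem (mem_sdiff.2 ⟨hxB, hxD⟩)]
      -- everything outside `S` is spanned by `B`
      have hr1 : ∀ x ∈ K1, r (insert x B) = r B := fun x hx => by
        have h3 := h.mono B (insert x B) (subset_insert x B)
        have h4 := hrk (insert x B) (insert_subset (mem_union_right _ (mem_union_left _ hx))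
          (sdiff_subset.trans subset_union_left))
        omega
      have hr2 : ∀ x ∈ K2, r (insert x B) = r B := fun x hx => by
        have h3 := h.mono B (insert x B) (subset_insert x B)
        have h4 := hrk (insert x B) (insert_subset (mem_union_right _ (mem_union_right _ hx))
          (sdiff_subset.trans subset_union_left))
        omega
      have k1 : ∀ x ∈ K1, r (insert x (B \ D1)) = r (B \ D1) := fun x hx => by
        have hq : ∀ q ∈ D1, r (insert x (B.erase q)) = r (B.erase q) := fun q hq => by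
          rw [hD1, mem_filter] at hq
          exact hq.2.2 x hx
        by_cases hxB : x ∈ B
        · exact hout D1 x hxB hq
        · exact ins_inter h hBi hxB hD1B (hr1 x hx) hq
      have k2 : ∀ x ∈ K2, r (insert x (B \ D2)) = r (B \ D2) := fun x hx => by
        have hq : ∀ q ∈ D2, r (insert x (B.erase q)) = r (B.erase q) := fun q hq => by
          rw [hD2, mem_filter] at hq
          exact hq.2.2 x hx
        by_cases hxB : x ∈ B
        · exact hout D2 x hxB hq
        · exact ins_inter h hBi hxB hD2B (hr2 x hx) hq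
      set L : Finset α := (B \ D1) \ D2 with hL
      -- ranks
      have n1 : r ((B \ D1) ∪ K1) = r (B \ D1) := rk_union_eq h k1
      have n2 : r ((B \ D2) ∪ K2) = r (B \ D2) := rk_union_eq h k2
      have i1 : r (B \ D1) = (B \ D1).card := ind_sub h hBi sdiff_subset
      have i2 : r (B \ D2) = (B \ D2).card := ind_sub h hBi sdiff_subset
      have hLB : L ⊆ B := sdiff_subset.trans sdiff_subset
      have i3 : r L = L.card := ind_sub h hBi hLB
      have c1 := card_sdiff_add_card_eq_card hD1B
      have c2 := card_sdiff_add_card_eq_card hD2B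
      have hD2' : D2 ⊆ B \ D1 := fun z hz => mem_sdiff.2 ⟨hD2B hz, fun hz' => hdis z hz' hz⟩
      have c3 := card_sdiff_add_card_eq_card hD2'
      rw [← hL] at c3
      -- `L ∪ K2` is spanned by `P`
      have hLP : ∀ z ∈ L ∪ K2, r (insert z P) = r P := by
        intro z hz
        rcases mem_union.1 hz with hz | hz
        · by_contra hc
          rw [hL, mem_sdiff, mem_sdiff] at hz
          rcases hcov z hz.1.1 (full_of_ne h hP hc) with h3 | h3
          · exact hz.1.2 h3
          · exact hz.2 h3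
        · exact ih z hz
      -- submodularity
      have s1 := h.submod (L ∪ K1) (L ∪ K2)
      have s2 := h.mono L ((L ∪ K1) ∩ (L ∪ K2))
        (fun z hz => mem_inter.2 ⟨mem_union_left _ hz, mem_union_left _ hz⟩)
      have s3 := h.mono (K1 ∪ K2) (L ∪ K1 ∪ (L ∪ K2)) (by
        intro z hz
        rcases mem_union.1 hz with hz | hz
        · exact mem_union_left _ (mem_union_right _ hz)
        · exact mem_union_right _ (mem_union_right _ hz))
      have s4 := h.mono (L ∪ K1) ((B \ D1) ∪ K1) (union_subset_union sdiff_subset (Subset.refl _))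
      -- D1 is spanned by `L ∪ K2`
      have hLD : L ∪ K2 ⊆ (B \ D2) ∪ K2 := by
        refine union_subset_union ?_ (Subset.refl _)
        intro z hz
        rw [hL, mem_sdiff, mem_sdiff] at hz
        exact mem_sdiff.2 ⟨hz.1.1, hz.2⟩
      have s5 := h.mono _ _ hLD
      have hD1e : D1 = ∅ := by
        apply eq_empty_of_forall_notMem
        intro z hz
        have hz' := hz
        rw [hD1, mem_filter] at hz'
        have t1 : r (insert z (L ∪ K2)) = r (L ∪ K2) := by
          have t2 := h.mono _ _ (subset_insert z (L ∪ K2))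
          have t3 := h.mono (insert z (L ∪ K2)) ((B \ D2) ∪ K2) (insert_subset
            (mem_union_left _ (mem_sdiff.2 ⟨hz'.1, hdis z hz⟩)) hLD)
          omega
        have t4 : r (P ∪ (L ∪ K2)) = r P := rk_union_eq h hLP
        have t5 := h.mono_insert t1 (subset_union_right (s₁ := P) (s₂ := L ∪ K2))
        have t6 := h.mono (insert z P) (insert z (P ∪ (L ∪ K2)))
          (insert_subset_insert _ subset_union_left)
        have t7 := hP.rk
        omega
      rcases hcov e he hr with h3 | h3
      · rw [hD1e] at h3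
        exact absurd h3 (notMem_empty e)
      · intro x hx
        rw [hD2, mem_filter] at h3
        exact h3.2.2 x hx
  obtain ⟨x, hx⟩ := hn2
  obtain ⟨Q, hQ, hQl, hr⟩ := tss h hS hJ (hl2 x hx)
  exact not_full hQl (hstep Q hQ x hx) hr

/-- The family of all `J` is not empty. -/
theorem hl_exists (h : RankFn r) (hS : Rig r S f) (hx : 0 < r {x}) (hr : r (insert x S) = f) :
    ∃ J, Hl r S f J ∧ r (insert x J) = f := by
  have hf : 1 ≤ f := by
    have h1 := h.mono {x} (insert x S) (singleton_subset_iff.2 (mem_insert_self x S))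
    omega
  have h0 := hS.card
  rcases Nat.eq_or_lt_of_le hf with hf1 | hf1
  · -- rank one
    have hc : S.card = 1 := by omega
    obtain ⟨s, hs⟩ := card_eq_one.1 hc
    have h1 := hS.lt S (Subset.refl S) ⟨s, by rw [hs]; exact mem_singleton_self s⟩
    have h2 := h.mono S (insert x S) (subset_insert x S)
    refine ⟨∅, ⟨empty_subset S, by rw [card_empty]; omega, by rw [h.empty]; omega, by
      rw [sdiff_empty]; omega⟩, ?_⟩
    rw [insert_empty_eq]
    have h3 := h.le_card {x}
    rw [card_singleton] at h3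
    omega
  · have hSn : S.Nonempty := by
      rw [← card_pos]; omega
    have h1 := hS.lt S (Subset.refl S) hSn
    have h2 := h.mono S (insert x S) (subset_insert x S)
    obtain ⟨T, h3, h4, h5, h6, h7⟩ := holesK h h (Y := S) (f := f) (g := f) (x := x) (by omega) (by omega)
      (fun X hX hXn => by
        have h8 := hS.lt X hX hXn
        omega) hx hr
    exact ⟨T, ⟨h3, h4, h5, h6⟩, h7⟩

/-- LEMMA D. -/
theorem lemD (h : RankFn r) (hS : Rig r S f)
    (hl1 : ∀ x ∈ K1, 0 < r {x}) (hl2 : ∀ x ∈ K2, 0 < r {x})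
    (hn1 : K1.Nonempty) (hn2 : K2.Nonempty)
    (hsp : r (K1 ∪ K2) = f) (hrk : ∀ X ⊆ S ∪ (K1 ∪ K2), r X ≤ f) :
    ∃ J, Hl r S f J ∧ (∃ x ∈ K1, r (insert x J) = f) ∧ (∃ x ∈ K2, r (insert x J) = f) := by
  by_contra hcon
  have hno : ∀ J, Hl r S f J → (∀ x ∈ K1, r (insert x J) = r J) ∨ (∀ x ∈ K2, r (insert x J) = r J) := by
    intro J hJ
    by_contra hc
    push Not at hc
    obtain ⟨⟨x, hx, hx'⟩, ⟨y, hy, hy'⟩⟩ := hc
    exact hcon ⟨J, hJ, ⟨x, hx, full_of_ne h hJ hx'⟩, ⟨y, hy, full_of_ne h hJ hy'⟩⟩
  obtain ⟨x, hx⟩ := hn1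
  have hxr : r (insert x S) = f := by
    have h1 := hrk (insert x S) (insert_subset (mem_union_right _ (mem_union_left _ hx)) subset_union_left)
    have h0 := hS.card
    rcases S.eq_empty_or_nonempty with he | hne
    · rw [he, card_empty] at h0
      omega
    · have h2 := hS.lt S (Subset.refl S) hne
      have h3 := h.mono S (insert x S) (subset_insert x S)
      omega
  obtain ⟨J, hJ, -⟩ := hl_exists h hS (hl1 x hx) hxr
  rcases hno J hJ with h1 | h2
  · refine lemD_aux h hS hl1 ⟨x, hx⟩ (by rw [union_comm]; exact hsp)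
      (fun X hX => hrk X (by rwa [union_comm K1 K2])) (fun J hJ => (hno J hJ).symm) hJ h1
  · exact lemD_aux h hS hl2 hn2 hsp hrk hno hJ h2

end Pool.Agent.EX84
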