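import Pool.Agent.EX84.Dl
import Pool.Agent.EX84.Defs

/-!
Fundamental circuits and modular pairs.

* `fc r f T y` : the fundamental circuit of `y` in the basis `T`.
* `mod_add`, `mod_skew` : modular pairs.
-/

set_option autoImplicit false

namespace Pool.Agent.EX84

open Finset Pool.Agent.DT3 Pool.Agent.CF98 Pool.Agent.WT59

variable {α : Type*} [DecidableEq α] {r : Finset α → ℕ} {E T T' A B C U V W X Y F : Finset α} {f g : ℕ} {x y z : α}

/-- The fundamental circuit of `y` in `T`. -/
def fc (r : Finset α → ℕ) (f : ℕ) (T : Finset α) (y : α) : Finset α :=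
  insert y (T.filter fun z => r (insert y (T.erase z)) = f)

theorem mem_fc : z ∈ fc r f T y ↔ z = y ∨ (z ∈ T ∧ r (insert y (T.erase z)) = f) := by
  rw [fc, mem_insert, mem_filter]

theorem self_fc : y ∈ fc r f T y := mem_fc.2 (Or.inl rfl)

theorem fc_sub : fc r f T y ⊆ insert y T := by
  intro z hz
  rcases mem_fc.1 hz with h | h
  · rw [h]; exact mem_insert_self y T
  · exact mem_insert_of_mem h.1

/-- Subsets of `insert y T` which do not contain the fundamental circuit are independent. -/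
theorem fc_min (h : RankFn r) (hT : Bs r f T) (hA : A ⊆ insert y T) (hC : ¬ fc r f T y ⊆ A) :
    r A = A.card := by
  by_cases hyT : y ∈ T
  · rw [insert_eq_of_mem hyT] at hA
    exact ind_sub h (hT.2.trans hT.1.symm) hA
  by_cases hyA : y ∈ A
  · rw [not_subset] at hC
    obtain ⟨z, hz, hzA⟩ := hC
    rcases mem_fc.1 hz with h1 | h1
    · rw [h1] at hzA
      exact absurd hyA hzA
    · have h2 : (insert y (T.erase z)).card = f := by
        rw [card_insert_of_notMem (fun hc => hyT (mem_of_mem_erase hc)), card_erase_of_mem h1.1]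
        have h3 : 0 < T.card := card_pos.2 ⟨z, h1.1⟩
        have h4 := hT.1
        omega
      refine ind_sub h (h1.2.trans h2.symm) ?_
      intro w hw
      rcases mem_insert.1 (hA hw) with h3 | h3
      · rw [h3]; exact mem_insert_self _ _
      · refine mem_insert_of_mem (mem_erase.2 ⟨?_, h3⟩)
        rintro rfl
        exact hzA hw
  · refine ind_sub h (hT.2.trans hT.1.symm) ?_
    intro w hw
    rcases mem_insert.1 (hA hw) with h3 | h3
    · exact absurd (h3 ▸ hw) hyA
    · exact h3

/-- The fundamental circuit is dependent. -/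
theorem fc_dep (h : RankFn r) (hT : Bs r f T) (hy : y ∉ T) (hr : r (insert y T) = f) :
    r (fc r f T y) + 1 = (fc r f T y).card := by
  have hTi : r T = T.card := hT.2.trans hT.1.symm
  have hr' : r (insert y T) = r T := by rw [hr, hT.2]
  have h1 : T.filter (fun z => r (insert y (T.erase z)) = f) = sp r T y := by
    ext z
    rw [mem_filter, mem_sp]
    constructor
    · rintro ⟨h2, h3⟩
      refine ⟨h2, ?_⟩
      have h4 := ind_sub h hTi (erase_subset z T)
      have h5 := card_erase_add_one h2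
      have h6 := hT.1
      omega
    · rintro ⟨h2, h3⟩
      refine ⟨h2, ?_⟩
      have h4 := ind_sub h hTi (erase_subset z T)
      have h5 := card_erase_add_one h2
      have h6 := hT.1
      have h7 := rk_ins_ne h h3
      omega
  have h2 := sp_span h hTi hy hr'
  have h3 := ind_sub h hTi (sp_sub (r := r) (J := T) (x := y))
  rw [fc, h1, h2, h3, card_insert_of_notMem (fun hc => hy (sp_sub hc))]

/-- Every element of the fundamental circuit is spanned by the others. -/
theorem fc_erase (h : RankFn r) (hT : Bs r f T) (hy : y ∉ T) (hr : r (insert y T) = f)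
    (hz : z ∈ fc r f T y) : r ((fc r f T y).erase z) = r (fc r f T y) := by
  have h1 := fc_dep h hT hy hr
  have h2 : r ((fc r f T y).erase z) = ((fc r f T y).erase z).card := by
    refine fc_min h hT ((erase_subset _ _).trans fc_sub) ?_
    intro hc
    exact notMem_erase z _ (hc hz)
  have h3 := card_erase_add_one hz
  omega

/-- The same circuit from two bases. -/
theorem fc_eq (h : RankFn r) (hT : Bs r f T) (hy : y ∉ T) (hr : r (insert y T) = f)
    (hT' : Bs r f T') (hx : x ∉ T') (hr' : r (insert x T') = f)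
    (hsub : fc r f T y ⊆ insert x T') : fc r f T y = fc r f T' x := by
  have h1 := fc_dep h hT hy hr
  have h2 : fc r f T' x ⊆ fc r f T y := by
    by_contra hc
    have h3 := fc_min h hT' hsub hc
    omega
  refine Subset.antisymm ?_ h2
  by_contra hc
  have h3 := fc_min h hT (h2.trans fc_sub) hc
  have h4 := fc_dep h hT' hx hr'
  omega

/-- Outside any set `H` a circuit has no coloops over `H`. -/
theorem fc_col (h : RankFn r) (hT : Bs r f T) (hy : y ∉ T) (hr : r (insert y T) = f)
    (hz : z ∈ fc r f T y \ U) : r (U ∪ (fc r f T y \ U).erase z) = r (U ∪ fc r f T y \ U) := by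
  have hz' := mem_sdiff.1 hz
  have h1 := fc_erase h hT hy hr hz'.1
  have h2 : r (insert z ((fc r f T y).erase z)) = r ((fc r f T y).erase z) := by
    rw [insert_erase hz'.1, h1]
  have h3 : (fc r f T y).erase z ⊆ U ∪ (fc r f T y \ U).erase z := by
    intro w hw
    have hw' := mem_erase.1 hw
    by_cases hwU : w ∈ U
    · exact mem_union_left _ hwU
    · exact mem_union_right _ (mem_erase.2 ⟨hw'.1, mem_sdiff.2 ⟨hw'.2, hwU⟩⟩)
  have h4 := cl_mono h h3 h2
  rw [← h4]
  congr 1
  ext w
  simp only [mem_insert, mem_union, mem_erase, mem_sdiff]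
  constructor
  · rintro (h5 | h5 | h5)
    · rw [h5]; exact Or.inr hz'
    · exact Or.inl h5
    · exact Or.inr h5.2
  · rintro (h5 | h5)
    · exact Or.inr (Or.inl h5)
    · by_cases hwz : w = z
      · exact Or.inl hwz
      · exact Or.inr (Or.inr ⟨hwz, h5⟩)

/-- A modular pair. -/
theorem mod_add (h : RankFn r) (hm : r U + r V = r (U ∪ V) + r (U ∩ V)) (hA : A ⊆ U) :
    r (V ∪ A) + r (U ∩ V) = r V + r ((U ∩ V) ∪ A) := by
  have h1 := h.submod U (V ∪ A)
  have e1 : U ∪ (V ∪ A) = U ∪ V := by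
    ext z
    simp only [mem_union]
    constructor
    · rintro (h2 | h2 | h2)
      · exact Or.inl h2
      · exact Or.inr h2
      · exact Or.inl (hA h2)
    · rintro (h2 | h2)
      · exact Or.inl h2
      · exact Or.inr (Or.inl h2)
  have h2 := h.mono ((U ∩ V) ∪ A) (U ∩ (V ∪ A)) (by
    intro z hz
    rcases mem_union.1 hz with h3 | h3
    · exact mem_inter.2 ⟨(mem_inter.1 h3).1, mem_union_left _ (mem_inter.1 h3).2⟩
    · exact mem_inter.2 ⟨hA h3, mem_union_right _ h3⟩)
  rw [e1] at h1
  have h3 := h.submod V ((U ∩ V) ∪ A)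
  have e2 : V ∪ ((U ∩ V) ∪ A) = V ∪ A := by
    ext z
    simp only [mem_union, mem_inter]
    tauto
  have h4 := h.mono (U ∩ V) (V ∩ ((U ∩ V) ∪ A)) (by
    intro z hz
    exact mem_inter.2 ⟨(mem_inter.1 hz).2, mem_union_left _ hz⟩)
  rw [e2] at h3
  omega

/-- Subsets of a modular pair are skew over the intersection. -/
theorem mod_skew (h : RankFn r) (hm : r U + r V = r (U ∪ V) + r (U ∩ V)) (hA : A ⊆ U) (hB : B ⊆ V) :
    r ((U ∩ V) ∪ A) + r ((U ∩ V) ∪ B) = r ((U ∩ V) ∪ (A ∪ B)) + r (U ∩ V) := by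
  have h1 := mod_add h hm hA
  have h2 := h.submod V ((U ∩ V) ∪ (A ∪ B))
  have e1 : V ∪ ((U ∩ V) ∪ (A ∪ B)) = V ∪ A := by
    ext z
    simp only [mem_union, mem_inter]
    constructor
    · rintro (h3 | h3 | h3 | h3)
      · exact Or.inl h3
      · exact Or.inl h3.2
      · exact Or.inr h3
      · exact Or.inl (hB h3)
    · rintro (h3 | h3)
      · exact Or.inl h3
      · exact Or.inr (Or.inr (Or.inl h3))
  rw [e1] at h2
  have h3 := h.mono ((U ∩ V) ∪ B) (V ∩ ((U ∩ V) ∪ (A ∪ B))) (by
    intro z hz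
    rcases mem_union.1 hz with h4 | h4
    · exact mem_inter.2 ⟨(mem_inter.1 h4).2, mem_union_left _ h4⟩
    · exact mem_inter.2 ⟨hB h4, mem_union_right _ (mem_union_right _ h4)⟩)
  have h4 := h.submod ((U ∩ V) ∪ A) ((U ∩ V) ∪ B)
  have e2 : (U ∩ V) ∪ A ∪ ((U ∩ V) ∪ B) = (U ∩ V) ∪ (A ∪ B) := by
    ext z
    simp only [mem_union, mem_inter]
    tauto
  rw [e2] at h4
  have h5 := h.mono (U ∩ V) (((U ∩ V) ∪ A) ∩ ((U ∩ V) ∪ B)) (by
    intro z hz
    exact mem_inter.2 ⟨mem_union_left _ hz, mem_union_left _ hz⟩)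
  omega

/-- Coloops over `V` and over `U ∩ V` are the same. -/
theorem mod_col (h : RankFn r) (hm : r U + r V = r (U ∪ V) + r (U ∩ V)) (hA : A ⊆ U)
    (hc : r (V ∪ A.erase z) = r (V ∪ A)) : r ((U ∩ V) ∪ A.erase z) = r ((U ∩ V) ∪ A) := by
  have h1 := mod_add h hm hA
  have h2 := mod_add h hm ((erase_subset z A).trans hA)
  omega

/-- Tight sets form modular pairs. -/
theorem ti_mod (h : RankFn r) (hn : ∀ X ⊆ E, 0 ≤ sg r T X) (hU : U ⊆ E) (hV : V ⊆ E)
    (hU0 : sg r T U = 0) (hV0 : sg r T V = 0) :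
    r U + r V = r (U ∪ V) + r (U ∩ V) ∧ sg r T (U ∪ V) = 0 ∧ sg r T (U ∩ V) = 0 := by
  have h1 := sg_sub h T U V
  have h2 := hn (U ∪ V) (union_subset hU hV)
  have h3 := hn (U ∩ V) (inter_subset_left.trans hU)
  have h4 : sg r T (U ∪ V) = 0 := by omega
  have h5 : sg r T (U ∩ V) = 0 := by omega
  refine ⟨?_, h4, h5⟩
  unfold sg at h4 h5 hU0 hV0
  have e1 : (U ∪ V) \ T = U \ T ∪ V \ T := union_sdiff_distrib U V T
  have e2 : (U ∩ V) \ T = (U \ T) ∩ (V \ T) := by
    ext x
    simp only [mem_sdiff, mem_inter]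
    tauto
  have h6 := card_union_add_card_inter (U \ T) (V \ T)
  rw [e1] at h4
  rw [e2] at h5
  omega

end Pool.Agent.EX84
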