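import Pool.Agent.EX84.Fc
import Pool.Agent.EX84.Adj
import Pool.Agent.WT59.One

/-!
Closest pairs at distance at least two, part one: exchanging `y` against an element of its circuit outside the largest tight set
without `y`.
-/

set_option autoImplicit false

namespace Pool.Agent.EX84

open Finset Pool.Agent.DT3 Pool.Agent.CF98 Pool.Agent.WT59

variable {α : Type*} [DecidableEq α] {r : Finset α → ℕ} {E T0 T1 : Finset α} {f : ℕ} {y z : α}
  {Q : Finset α → Prop} {m c : α → α} {H : α → Finset α}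

theorem Clo.card_eq (hc : Clo r E f Q T0 T1) : (T0 \ T1).card = (T1 \ T0).card :=
  card_sdiff_comm (hc.g0.2.1.1.trans hc.g1.2.1.1.symm)

theorem Clo.swap (hc : Clo r E f Q T0 T1) : Clo r E f (fun T => ¬ Q T) T1 T0 where
  g0 := hc.g1
  g1 := hc.g0
  q0 := hc.q1
  q1 := fun h => h hc.q0
  min := by
    intro T T' hT hT' hq hq'
    have h1 := hc.min T' T hT' hT (not_not.1 hq') hq
    rw [hc.card_eq] at h1
    rwa [card_sdiff_comm (hT.2.1.1.trans hT'.2.1.1.symm)]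

theorem EM.surj (hc : Clo r E f Q T0 T1) (hm : EM r E f T0 T1 m c H) {x : α} (hx : x ∈ T0 \ T1) :
    ∃ y ∈ T1 \ T0, m y = x := by
  have h1 : (T1 \ T0).image m ⊆ T0 \ T1 := by
    intro w hw
    obtain ⟨v, hv, rfl⟩ := mem_image.1 hw
    exact hm.mp v hv
  have h2 : ((T1 \ T0).image m).card = (T1 \ T0).card := card_image_iff.2 hm.mi
  have h3 : (T1 \ T0).image m = T0 \ T1 := eq_of_subset_of_card_le h1 (by rw [h2, hc.card_eq])
  rw [← h3] at hx
  obtain ⟨v, hv, h4⟩ := mem_image.1 hx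
  exact ⟨v, hv, h4⟩

theorem EM.tg (hm : EM r E f T0 T1 m c H) (hy : y ∈ T1 \ T0) : TG r E T0 y (H y) :=
  ⟨hm.hE y hy, hm.t0 y hy, hm.n0 y hy, hm.x0 y hy⟩

theorem EM.tg1 (hm : EM r E f T0 T1 m c H) (hy : y ∈ T1 \ T0) : TG r E T1 (m y) (H y) :=
  ⟨hm.hE y hy, hm.t1 y hy, hm.n1 y hy, hm.x1 y hy⟩

theorem TG.uniq {b : Finset α} {x : α} {G G' : Finset α} (h : TG r E b x G) (h' : TG r E b x G') : G = G' :=
  Subset.antisymm (h'.max G h.sub h.ti h.nin) (h.max G' h'.sub h'.ti h'.nin)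

/-- One exchange. -/
theorem step (hE : Env r E f) (hc : Clo r E f Q T0 T1) (hm : EM r E f T0 T1 m c H)
    (hk : 2 ≤ (T0 \ T1).card) (hy : y ∈ T1 \ T0) (hz : z ∈ T0) (hzH : z ∉ H y)
    (hr : r (insert y (T0.erase z)) = f) :
    z ∈ T1 ∧ Clo r E f Q (insert y (T0.erase z)) T1 ∧ insert y (T0.erase z) \ T1 = T0 \ T1 ∧
      T1 \ insert y (T0.erase z) = insert z ((T1 \ T0).erase y) := by
  have hy' := mem_sdiff.1 hy
  have hzT : z ∈ T1 := by
    by_contra hz1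
    have h1 : z ∈ T0 \ T1 := mem_sdiff.2 ⟨hz, hz1⟩
    have h2 := (hm.c0 y hy z h1).1 hr
    exact hzH (hm.in0 y hy (mem_erase.2 ⟨by rw [h2]; exact hm.ne hk y hy, h1⟩))
  have hyE : y ∈ E \ T0 := mem_sdiff.2 ⟨hc.g1.1 hy'.1, hy'.2⟩
  have hgd := tok_gd hE hc.g0 hyE (hm.tg hy) hz hzH hr
  have e1 : insert y (T0.erase z) \ T1 = T0 \ T1 := by
    ext w
    simp only [mem_sdiff, mem_insert, mem_erase]
    constructor
    · rintro ⟨h1 | h1, h2⟩
      · exact absurd (h1 ▸ hy'.1) h2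
      · exact ⟨h1.2, h2⟩
    · rintro ⟨h1, h2⟩
      exact ⟨Or.inr ⟨fun h3 => h2 (h3 ▸ hzT), h1⟩, h2⟩
  have e2 : T1 \ insert y (T0.erase z) = insert z ((T1 \ T0).erase y) := by
    ext w
    simp only [mem_sdiff, mem_insert, mem_erase]
    constructor
    · rintro ⟨h1, h2⟩
      by_cases hwz : w = z
      · exact Or.inl hwz
      · exact Or.inr ⟨fun h3 => h2 (Or.inl h3), h1, fun h3 => h2 (Or.inr ⟨hwz, h3⟩)⟩
    · rintro (rfl | ⟨h1, h2, h3⟩)
      · refine ⟨hzT, ?_⟩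
        rintro (h4 | h4)
        · exact hy'.2 (h4 ▸ hz)
        · exact h4.1 rfl
      · refine ⟨h2, ?_⟩
        rintro (h4 | h4)
        · exact h1 h4
        · exact h3 h4.2
  have hq : Q (insert y (T0.erase z)) := by
    by_contra hq
    have h1 := hc.min T0 _ hc.g0 hgd hc.q0 hq
    have h2 : T0 \ insert y (T0.erase z) ⊆ {z} := by
      intro w hw
      simp only [mem_sdiff, mem_insert, mem_erase] at hw
      rw [mem_singleton]
      by_contra h3
      exact hw.2 (Or.inr ⟨h3, hw.1⟩)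
    have h3 := card_le_card h2
    rw [card_singleton] at h3
    omega
  refine ⟨hzT, ⟨hgd, hc.g1, hq, hc.q1, ?_⟩, e1, e2⟩
  intro T T' hT hT' hq hq'
  rw [e1]
  exact hc.min T T' hT hT' hq hq'

/-- One exchange does not change the classes of the other elements. -/
theorem step_em (hE : Env r E f)
    (hem : ∀ (Q : Finset α → Prop) (T0 T1 : Finset α), Clo r E f Q T0 T1 → ∃ m c H, EM r E f T0 T1 m c H)
    (hc : Clo r E f Q T0 T1) (hm : EM r E f T0 T1 m c H)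
    (hk : 2 ≤ (T0 \ T1).card) (hy : y ∈ T1 \ T0) (hz : z ∈ T0) (hzH : z ∉ H y)
    (hr : r (insert y (T0.erase z)) = f) :
    ∃ m' c' H', EM r E f (insert y (T0.erase z)) T1 m' c' H' ∧
      ∀ y' ∈ T1 \ T0, y' ≠ y → y' ∈ T1 \ insert y (T0.erase z) ∧ m' y' = m y' ∧ H' y' = H y' := by
  obtain ⟨hzT, hc', e1, e2⟩ := step hE hc hm hk hy hz hzH hr
  obtain ⟨m', c', H', hm'⟩ := hem Q _ _ hc'
  refine ⟨m', c', H', hm', ?_⟩
  intro y' hy' hne
  have hy'' : y' ∈ T1 \ insert y (T0.erase z) := by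
    rw [e2]
    exact mem_insert_of_mem (mem_erase.2 ⟨hne, hy'⟩)
  have hmm : m' y' = m y' := by
    by_contra hmne
    have h1 := hm'.mp y' hy''
    rw [e1] at h1
    obtain ⟨v, hv, hv'⟩ := hm.surj hc h1
    have h2 : v ≠ y' := by
      rintro rfl
      exact hmne hv'.symm
    have h3 : H v = H' y' := by
      refine TG.uniq (hm.tg1 hv) ?_
      rw [hv']
      exact hm'.tg1 hy''
    have h4 : y' ∈ H v := hm.in1 v hv (mem_erase.2 ⟨h2.symm, hy'⟩)
    rw [h3] at h4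
    exact hm'.n0 y' hy'' h4
  refine ⟨hy'', hmm, ?_⟩
  refine TG.uniq (hm'.tg1 hy'') ?_
  rw [hmm]
  exact hm.tg1 hy'

/-- The circuit of `y` outside `H y` lies in all the other `H y'`. -/
theorem dsub (hE : Env r E f)
    (hem : ∀ (Q : Finset α → Prop) (T0 T1 : Finset α), Clo r E f Q T0 T1 → ∃ m c H, EM r E f T0 T1 m c H)
    (hc : Clo r E f Q T0 T1) (hm : EM r E f T0 T1 m c H)
    (hk : 2 ≤ (T0 \ T1).card) (hy : y ∈ T1 \ T0) {y' : α} (hy' : y' ∈ T1 \ T0) (hne : y' ≠ y) :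
    fc r f T0 y \ H y ⊆ H y' := by
  intro z hz
  have hz' := mem_sdiff.1 hz
  rcases mem_fc.1 hz'.1 with h1 | ⟨h1, h2⟩
  · rw [h1]
    exact hm.in1 y' hy' (mem_erase.2 ⟨hne.symm, hy⟩)
  · obtain ⟨hzT, hc', e1, e2⟩ := step hE hc hm hk hy h1 hz'.2 h2
    obtain ⟨m', c', H', hm', h3⟩ := step_em hE hem hc hm hk hy h1 hz'.2 h2
    obtain ⟨h4, -, h5⟩ := h3 y' hy' hne
    rw [← h5]
    refine hm'.in1 y' h4 (mem_erase.2 ⟨?_, ?_⟩)
    · rintro rfl
      exact (mem_sdiff.1 hy').2 h1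
    · rw [e2]
      exact mem_insert_self z _

end Pool.Agent.EX84
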