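import Pool.Agent.EX84.K2A

/-!
Closest pairs at distance at least two, part two: circuits from both sides; at distance two the sets `X - d - e` have the colour of `T0`.
-/

set_option autoImplicit false

namespace Pool.Agent.EX84

open Finset Pool.Agent.DT3 Pool.Agent.CF98 Pool.Agent.WT59

variable {α : Type*} [DecidableEq α] {r : Finset α → ℕ} {E T0 T1 : Finset α} {f : ℕ} {y z : α}
  {Q : Finset α → Prop} {m c : α → α} {H : α → Finset α}

theorem gd_full (hE : Env r E f) (hT : Gd r E f T0) (hy : y ∈ E) : r (insert y T0) = f := by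
  have h1 := hE.rk.mono T0 (insert y T0) (subset_insert y T0)
  have h2 := hE.rk.mono (insert y T0) E (insert_subset hy hT.1)
  have h3 := hT.2.1.2
  have h4 := hE.rank
  omega

/-- The circuit of `y` in `T0` is the circuit of `c y` in `T1`. -/
theorem EM.fc_eq (hE : Env r E f) (hc : Clo r E f Q T0 T1) (hm : EM r E f T0 T1 m c H)
    (hy : y ∈ T1 \ T0) : fc r f T0 y = fc r f T1 (c y) := by
  have hy' := mem_sdiff.1 hy
  have hx := mem_sdiff.1 (hm.cp y hy)
  refine EX84.fc_eq hE.rk hc.g0.2.1 hy'.2 (gd_full hE hc.g0 (hc.g1.1 hy'.1)) hc.g1.2.1 hx.2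
    (gd_full hE hc.g1 (hc.g0.1 hx.1)) ?_
  intro z hz
  rcases mem_fc.1 hz with h | ⟨h1, h2⟩
  · rw [h]; exact mem_insert_of_mem hy'.1
  · by_cases hz1 : z ∈ T1
    · exact mem_insert_of_mem hz1
    · rw [(hm.c0 y hy z (mem_sdiff.2 ⟨h1, hz1⟩)).1 h2]
      exact mem_insert_self _ _

/-- At distance two the sets `X - d - e` are good and have the colour of `T0`. -/
theorem cols (hE : Env r E f)
    (hem : ∀ (Q : Finset α → Prop) (T0 T1 : Finset α), Clo r E f Q T0 T1 → ∃ m c H, EM r E f T0 T1 m c H)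
    (hc : Clo r E f Q T0 T1) (hm : EM r E f T0 T1 m c H)
    (hk : (T0 \ T1).card = 2) {y1 y2 d e : α} (hy1 : y1 ∈ T1 \ T0) (hy2 : y2 ∈ T1 \ T0) (hne : y2 ≠ y1)
    (hd : d ∈ fc r f T0 y1 \ H y1) (he : e ∈ fc r f T0 y2 \ H y2) :
    Gd r E f ((T0 ∪ T1) \ {d, e}) ∧ Q ((T0 ∪ T1) \ {d, e}) := by
  have hy1' := mem_sdiff.1 hy1
  have hy2' := mem_sdiff.1 hy2
  have hd' := mem_sdiff.1 hd
  have he' := mem_sdiff.1 he
  have hQ1 : T1 \ T0 = {y1, y2} := by
    have h1 : ({y1, y2} : Finset α) ⊆ T1 \ T0 := by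
      intro w hw
      rcases mem_insert.1 hw with h | h
      · rw [h]; exact hy1
      · rw [mem_singleton.1 h]; exact hy2
    have h2 : ({y1, y2} : Finset α).card = 2 := card_pair hne.symm
    exact (eq_of_subset_of_card_le h1 (by rw [← hc.card_eq, hk, h2])).symm
  have hX : ∀ w, w ∈ T0 ∪ T1 ↔ w ∈ T0 ∨ w = y1 ∨ w = y2 := by
    intro w
    rw [mem_union]
    constructor
    · rintro (h | h)
      · exact Or.inl h
      · by_cases hw : w ∈ T0
        · exact Or.inl hw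
        · have h1 : w ∈ T1 \ T0 := mem_sdiff.2 ⟨h, hw⟩
          rw [hQ1, mem_insert, mem_singleton] at h1
          exact Or.inr h1
    · rintro (h | h | h)
      · exact Or.inl h
      · rw [h]; exact Or.inr hy1'.1
      · rw [h]; exact Or.inr hy2'.1
  have hdy2 : d ≠ y2 := by
    rintro rfl
    rcases mem_fc.1 hd'.1 with h | h
    · exact hne h
    · exact hy2'.2 h.1
  -- the first exchange
  obtain ⟨T', m', c', H', hcT, hmT, hT'1, hy2T, hmy, hHy, hT'X⟩ : ∃ (T' : Finset α) (m' c' : α → α)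
      (H' : α → Finset α), Clo r E f Q T' T1 ∧ EM r E f T' T1 m' c' H' ∧ T' \ T1 = T0 \ T1 ∧
      y2 ∈ T1 \ T' ∧ m' y2 = m y2 ∧ H' y2 = H y2 ∧ T' = (T0 ∪ T1) \ {d, y2} := by
    rcases mem_fc.1 hd'.1 with h | ⟨h1, h2⟩
    · refine ⟨T0, m, c, H, hc, hm, rfl, hy2, rfl, rfl, ?_⟩
      ext w
      rw [mem_sdiff, hX, mem_insert, mem_singleton, h]
      constructor
      · intro hw
        refine ⟨Or.inl hw, ?_⟩
        rintro (h3 | h3)
        · exact hy1'.2 (h3 ▸ hw)
        · exact hy2'.2 (h3 ▸ hw)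
      · rintro ⟨h3 | h3 | h3, h4⟩
        · exact h3
        · exact absurd (Or.inl h3) h4
        · exact absurd (Or.inr h3) h4
    · obtain ⟨hzT, hc', e1, e2⟩ := step hE hc hm hk.ge hy1 h1 hd'.2 h2
      obtain ⟨m', c', H', hm', h3⟩ := step_em hE hem hc hm hk.ge hy1 h1 hd'.2 h2
      obtain ⟨h4, h5, h6⟩ := h3 y2 hy2 hne
      refine ⟨_, m', c', H', hc', hm', e1, h4, h5, h6, ?_⟩
      ext w
      rw [mem_sdiff, hX, mem_insert, mem_insert, mem_singleton, mem_erase]
      constructor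
      · rintro (h7 | h7)
        · refine ⟨Or.inr (Or.inl h7), ?_⟩
          rintro (h8 | h8)
          · exact hy1'.2 (by rw [← h7, h8]; exact h1)
          · exact hne (by rw [← h8, h7])
        · refine ⟨Or.inl h7.2, ?_⟩
          rintro (h8 | h8)
          · exact h7.1 h8
          · exact hy2'.2 (h8 ▸ h7.2)
      · rintro ⟨h7 | h7 | h7, h8⟩
        · exact Or.inr ⟨fun h9 => h8 (Or.inl h9), h7⟩
        · exact Or.inl h7
        · exact absurd (Or.inr h7) h8
  -- the circuit of `y2` is the same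
  have hcc : c' y2 = c y2 := by
    have h1 := hmT.cp y2 hy2T
    have h2 := hmT.ne (by rw [hT'1, hk]) y2 hy2T
    have h3 := hm.cp y2 hy2
    have h4 := hm.ne hk.ge y2 hy2
    rw [hT'1] at h1
    rw [hmy] at h2
    have h5 : ((T0 \ T1).erase (m y2)).card ≤ 1 := by
      rw [card_erase_of_mem (hm.mp y2 hy2), hk]
    exact card_le_one.1 h5 _ (mem_erase.2 ⟨h2, h1⟩) _ (mem_erase.2 ⟨h4, h3⟩)
  have hfc : fc r f T' y2 = fc r f T0 y2 := by
    rw [hmT.fc_eq hE hcT hy2T, hcc, hm.fc_eq hE hc hy2]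
  rw [← hfc] at he'
  rcases mem_fc.1 he'.1 with h | ⟨h1, h2⟩
  · rw [h, ← hT'X]
    exact ⟨hcT.g0, hcT.q0⟩
  · have h3 := (step hE hcT hmT (by rw [hT'1, hk]) hy2T h1 (by rw [hHy]; exact he'.2) h2).2.1
    have h4 : insert y2 (T'.erase e) = (T0 ∪ T1) \ {d, e} := by
      ext w
      have h5 : w ∈ T' ↔ w ∈ T0 ∪ T1 ∧ w ≠ d ∧ w ≠ y2 := by
        rw [hT'X, mem_sdiff, mem_insert, mem_singleton]
        tauto
      have h6 := h1
      rw [hT'X, mem_sdiff, mem_insert, mem_singleton] at h6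
      rw [mem_insert, mem_erase, h5, mem_sdiff, mem_insert, mem_singleton]
      constructor
      · rintro (h7 | ⟨h7, h8, h9, h10⟩)
        · rw [h7]
          refine ⟨mem_union_right _ hy2'.1, ?_⟩
          rintro (h8 | h8)
          · exact hdy2 h8.symm
          · exact h6.2 (Or.inr h8.symm)
        · exact ⟨h8, fun h11 => h11.elim h9 h7⟩
      · rintro ⟨h7, h8⟩
        by_cases hw : w = y2
        · exact Or.inl hw
        · exact Or.inr ⟨fun h9 => h8 (Or.inr h9), h7, fun h9 => h8 (Or.inl h9), hw⟩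
    rw [h4] at h3
    exact ⟨h3.g0, h3.q0⟩

end Pool.Agent.EX84
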