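import Pool.Agent.EX84.K2B

/-!
Closest pairs at distance at least two, part three: use of `Star`.

* `spanD` : the sets `C(T0, y1) \ H y1` and `C(T0, y2) \ H y2` span together with `H y1 ∩ H y2 ∩ W`.
* `k3` : the distance is at most two.
* `adj2` : at distance two, adjacency inside `H y'` over `F = H y ∩ H y'`.
-/

set_option autoImplicit false

namespace Pool.Agent.EX84

open Finset Pool.Agent.DT3 Pool.Agent.CF98 Pool.Agent.WT59

variable {α : Type*} [DecidableEq α] {r : Finset α → ℕ} {E T0 T1 : Finset α} {f : ℕ} {y z : α}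
  {Q : Finset α → Prop} {m c : α → α} {H : α → Finset α}

/-- The circuit of `y` outside `H y`. -/
def DD (r : Finset α → ℕ) (f : ℕ) (T : Finset α) (H : α → Finset α) (y : α) : Finset α :=
  fc r f T y \ H y

theorem DD.ne (hm : EM r E f T0 T1 m c H) (hy : y ∈ T1 \ T0) : (DD r f T0 H y).Nonempty :=
  ⟨y, mem_sdiff.2 ⟨self_fc, hm.n0 y hy⟩⟩

theorem DD.sub (hE : Env r E f) (hc : Clo r E f Q T0 T1) (hy : y ∈ T1 \ T0) :
    DD r f T0 H y ⊆ T0 ∪ T1 := by
  intro z hz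
  rcases mem_fc.1 (mem_sdiff.1 hz).1 with h | h
  · rw [h]; exact mem_union_right _ (mem_sdiff.1 hy).1
  · exact mem_union_left _ h.1

theorem DD.simple (hE : Env r E f) (hc : Clo r E f Q T0 T1) (hm : EM r E f T0 T1 m c H)
    (hk : 2 ≤ (T0 \ T1).card) (hy : y ∈ T1 \ T0) :
    ∀ x ∈ DD r f T0 H y, ∀ x' ∈ DD r f T0 H y, x ≠ x' → r {x, x'} = 2 := by
  intro x hx x' hx' hne
  have h1 := mem_sdiff.1 hx
  have h2 := mem_sdiff.1 hx'
  have h3 : ({x, x'} : Finset α) ⊆ insert y T0 := by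
    intro w hw
    rcases mem_insert.1 hw with h | h
    · rw [h]; exact fc_sub h1.1
    · rw [mem_singleton.1 h]; exact fc_sub h2.1
  have hcy := hm.cp y hy
  have hcH : c y ∈ H y := hm.in0 y hy (mem_erase.2 ⟨hm.ne hk y hy, hcy⟩)
  have h4 := fc_min hE.rk hc.g0.2.1 h3 (by
    intro hsub
    have h5 := hsub (mem_fc.2 (Or.inr ⟨(mem_sdiff.1 hcy).1, (hm.c0 y hy (c y) hcy).2 rfl⟩))
    rcases mem_insert.1 h5 with h | h
    · exact h1.2 (h ▸ hcH)
    · exact h2.2 (mem_singleton.1 h ▸ hcH))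
  rw [h4, card_pair hne]

/-- Elements of `DD` are not spanned by subsets of `H y`. -/
theorem DD.nl (hE : Env r E f) (hc : Clo r E f Q T0 T1) (hm : EM r E f T0 T1 m c H)
    (hy : y ∈ T1 \ T0) {F : Finset α} (hF : F ⊆ H y) :
    ∀ x ∈ DD r f T0 H y, r (insert x F) ≠ r F := by
  intro x hx h0
  have h1 := mem_sdiff.1 hx
  have h2 := hE.rk.mono_insert h0 hF
  have hyE : y ∈ E \ T0 := mem_sdiff.2 ⟨hc.g1.1 (mem_sdiff.1 hy).1, (mem_sdiff.1 hy).2⟩
  rcases mem_fc.1 h1.1 with h | h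
  · rw [h] at h2
    exact (hm.tg hy).nx hE hc.g0 hyE h2
  · exact (hm.tg hy).nh hE hc.g0 hyE h.1 h1.2 h2

/-- `DD` has no coloops over `U ∩ H y` if `DD ⊆ U` and `U`, `H y` form a modular pair. -/
theorem DD.col (hE : Env r E f) (hc : Clo r E f Q T0 T1) (hy : y ∈ T1 \ T0) {U : Finset α}
    (hU : DD r f T0 H y ⊆ U) (hmod : r U + r (H y) = r (U ∪ H y) + r (U ∩ H y)) :
    ∀ x ∈ DD r f T0 H y, r ((U ∩ H y) ∪ (DD r f T0 H y).erase x) = r ((U ∩ H y) ∪ DD r f T0 H y) := by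
  intro x hx
  exact mod_col hE.rk hmod hU
    (fc_col hE.rk hc.g0.2.1 (mem_sdiff.1 hy).2 (gd_full hE hc.g0 (hc.g1.1 (mem_sdiff.1 hy).1)) hx)

theorem spanD (hE : Env r E f) (hst : Star r E f)
    (hem : ∀ (Q : Finset α → Prop) (T0 T1 : Finset α), Clo r E f Q T0 T1 → ∃ m c H, EM r E f T0 T1 m c H)
    (hc : Clo r E f Q T0 T1) (hm : EM r E f T0 T1 m c H)
    (hk : 2 ≤ (T0 \ T1).card) {y1 y2 : α} (hy1 : y1 ∈ T1 \ T0) (hy2 : y2 ∈ T1 \ T0) (hne : y2 ≠ y1)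
    {W : Finset α} (hW : W ⊆ E) (hW0 : sg r T0 W = 0) (hW1 : DD r f T0 H y1 ⊆ W)
    (hW2 : DD r f T0 H y2 ⊆ W) :
    r ((H y2 ∩ W ∩ H y1) ∪ (DD r f T0 H y1 ∪ DD r f T0 H y2)) = f := by
  have hn := sg_nonneg hE.rk hc.g0.2.2
  have hH1 := hm.hE y1 hy1
  have hH2 := hm.hE y2 hy2
  -- tight sets
  obtain ⟨-, -, a1⟩ := ti_mod hE.rk hn hH2 hW (hm.t0 y2 hy2) hW0
  obtain ⟨-, -, a2⟩ := ti_mod hE.rk hn hH1 hW (hm.t0 y1 hy1) hW0
  have u1 : H y2 ∩ W ⊆ E := inter_subset_left.trans hH2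
  have u2 : H y1 ∩ W ⊆ E := inter_subset_left.trans hH1
  obtain ⟨m1, -, -⟩ := ti_mod hE.rk hn u1 hH1 a1 (hm.t0 y1 hy1)
  obtain ⟨m2, -, -⟩ := ti_mod hE.rk hn u2 hH2 a2 (hm.t0 y2 hy2)
  have eF : H y1 ∩ W ∩ H y2 = H y2 ∩ W ∩ H y1 := by
    ext w; simp only [mem_inter]; tauto
  have d1 : DD r f T0 H y1 ⊆ H y2 ∩ W := fun w hw =>
    mem_inter.2 ⟨dsub hE hem hc hm hk hy1 hy2 hne hw, hW1 hw⟩
  have d2 : DD r f T0 H y2 ⊆ H y1 ∩ W := fun w hw =>
    mem_inter.2 ⟨dsub hE hem hc hm hk hy2 hy1 hne.symm hw, hW2 hw⟩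
  have d2' : DD r f T0 H y2 ⊆ H y1 := d2.trans inter_subset_left
  refine hst _ (inter_subset_left.trans u1) _ (d1.trans u1) _ (d2.trans u2) (DD.ne hm hy1) (DD.ne hm hy2)
    (DD.simple hE hc hm hk hy1) (DD.simple hE hc hm hk hy2) ?_ ?_ ?_ ?_
  · intro x hx
    rcases mem_union.1 hx with hx | hx
    · exact DD.nl hE hc hm hy1 inter_subset_right x hx
    · exact DD.nl hE hc hm hy2 (inter_subset_left.trans inter_subset_left) x hx
  · exact DD.col hE hc hy1 d1 m1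
  · rw [← eF]
    exact DD.col hE hc hy2 d2 m2
  · exact mod_skew hE.rk m1 d1 d2'

/-- The distance is at most two. -/
theorem k3 (hE : Env r E f) (hst : Star r E f)
    (hem : ∀ (Q : Finset α → Prop) (T0 T1 : Finset α), Clo r E f Q T0 T1 → ∃ m c H, EM r E f T0 T1 m c H)
    (hc : Clo r E f Q T0 T1) (hm : EM r E f T0 T1 m c H) (hk : 3 ≤ (T0 \ T1).card) : False := by
  have hk2 : 2 ≤ (T0 \ T1).card := by omega
  rw [hc.card_eq] at hk
  obtain ⟨y1, h1, y2, h2, y3, h3, n12, n13, n23⟩ := two_lt_card.1 (show 2 < (T1 \ T0).card by omega)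
  have h4 := spanD hE hst hem hc hm hk2 h1 h2 n12.symm (hm.hE y3 h3) (hm.t0 y3 h3)
    (dsub hE hem hc hm hk2 h1 h3 n13.symm) (dsub hE hem hc hm hk2 h2 h3 n23.symm)
  have h5 := hE.rk.mono ((H y2 ∩ H y3 ∩ H y1) ∪ (DD r f T0 H y1 ∪ DD r f T0 H y2)) (H y3) (by
    intro w hw
    rcases mem_union.1 hw with hw | hw
    · exact (mem_inter.1 (mem_inter.1 hw).1).2
    · rcases mem_union.1 hw with hw | hw
      · exact dsub hE hem hc hm hk2 h1 h3 n13.symm hw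
      · exact dsub hE hem hc hm hk2 h2 h3 n23.symm hw)
  have hyE : y3 ∈ E \ T0 := mem_sdiff.2 ⟨hc.g1.1 (mem_sdiff.1 h3).1, (mem_sdiff.1 h3).2⟩
  have h6 := (hm.tg h3).nx hE hc.g0 hyE
  have h7 := hE.rk.mono (H y3) (insert y3 (H y3)) (subset_insert _ _)
  have h8 := hE.rk.mono (insert y3 (H y3)) E (insert_subset (mem_sdiff.1 hyE).1 (hm.hE y3 h3))
  have h9 := hE.rank
  omega

/-- The two elements of `T1 \ T0`. -/
theorem pair_of (hc : Clo r E f Q T0 T1) (hk : (T0 \ T1).card = 2) {y y' : α} (hy : y ∈ T1 \ T0)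
    (hy' : y' ∈ T1 \ T0) (hne : y' ≠ y) : ∀ w ∈ T1 \ T0, w = y ∨ w = y' := by
  intro w hw
  by_contra hcon
  rw [not_or] at hcon
  have h1 : 2 < (T1 \ T0).card := two_lt_card.2 ⟨w, hw, y, hy, y', hy', hcon.1, hcon.2, hne.symm⟩
  rw [← hc.card_eq] at h1
  omega

/-- At distance two: adjacency inside `H y'` over `F = H y' ∩ H y`. -/
theorem adj2 (hE : Env r E f) (hst : Star r E f)
    (hem : ∀ (Q : Finset α → Prop) (T0 T1 : Finset α), Clo r E f Q T0 T1 → ∃ m c H, EM r E f T0 T1 m c H)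
    (hc : Clo r E f Q T0 T1) (hm : EM r E f T0 T1 m c H)
    (hk : (T0 \ T1).card = 2) {y y' : α} (hy : y ∈ T1 \ T0) (hy' : y' ∈ T1 \ T0) (hne : y' ≠ y) :
    (2 * r (H y' ∩ H y) = ((H y' ∩ H y) \ (T0 ∪ T1)).card) ∧
    ∃ J ⊆ (H y' \ (H y' ∩ H y)) \ (T0 ∪ T1),
      J.card + 1 + r (H y' ∩ H y) = r (H y') ∧ r (J ∪ (H y' ∩ H y)) + 1 = r (H y') ∧
      r ((((H y' \ (H y' ∩ H y)) \ (T0 ∪ T1)) \ J) ∪ (H y' ∩ H y)) = r (H y') ∧
      (∃ x ∈ DD r f T0 H y, r (insert x (J ∪ (H y' ∩ H y))) = r (H y')) ∧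
      (∃ x ∈ fc r f T1 (m y) \ H y, r (insert x (J ∪ (H y' ∩ H y))) = r (H y')) := by
  have hn := sg_nonneg hE.rk hc.g0.2.2
  have hH := hm.hE y hy
  have hH' := hm.hE y' hy'
  set F : Finset α := H y' ∩ H y with hF
  set X : Finset α := T0 ∪ T1 with hX
  set S : Finset α := (H y' \ F) \ X with hS
  obtain ⟨hmod, -, hF0⟩ := ti_mod hE.rk hn hH' hH (hm.t0 y' hy') (hm.t0 y hy)
  rw [← hF] at hF0 hmod
  have hFE : F ⊆ E := inter_subset_left.trans hH'
  have hFH : F ⊆ H y := inter_subset_right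
  have hFH' : F ⊆ H y' := inter_subset_left
  have hpair := pair_of hc hk hy hy' hne
  have hyT := mem_sdiff.1 hy
  have hyT' := mem_sdiff.1 hy'
  have hyX : y ∈ X := mem_union_right _ hyT.1
  have hyX' : y' ∈ X := mem_union_right _ hyT'.1
  -- the swapped pair
  obtain ⟨ms, cs, Hs, hms⟩ := hem _ _ _ hc.swap
  have hmy := hm.mp y hy
  have hmy' := hm.mp y' hy'
  have hmne : m y' ≠ m y := fun h => hne (hm.mi hy' hy h)
  have hHs : Hs (m y) = H y := TG.uniq (hms.tg hmy) (hm.tg1 hy)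
  have hHs' : Hs (m y') = H y' := TG.uniq (hms.tg hmy') (hm.tg1 hy')
  have hks : 2 ≤ (T1 \ T0).card := by rw [← hc.card_eq, hk]
  -- the two token sets
  have k1 : DD r f T0 H y ⊆ H y' := dsub hE hem hc hm hk.ge hy hy' hne
  have k2 : DD r f T1 Hs (m y) ⊆ H y' := by
    have h1 := dsub hE hem hc.swap hms hks hmy hmy' hmne
    rwa [hHs'] at h1
  have x1 : DD r f T0 H y ⊆ X := DD.sub hE hc hy
  have x2 : DD r f T1 Hs (m y) ⊆ X := by
    have h1 := DD.sub (H := Hs) hE hc.swap hmy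
    rwa [union_comm] at h1
  have eK2 : DD r f T1 Hs (m y) = fc r f T1 (m y) \ H y := by rw [DD, hHs]
  -- counts
  have c1 : F \ X = F \ T0 := by
    ext w
    rw [mem_sdiff, mem_sdiff, hX, mem_union]
    constructor
    · rintro ⟨h1, h2⟩
      exact ⟨h1, fun h3 => h2 (Or.inl h3)⟩
    · rintro ⟨h1, h2⟩
      refine ⟨h1, ?_⟩
      rintro (h3 | h3)
      · exact h2 h3
      · rcases hpair w (mem_sdiff.2 ⟨h3, h2⟩) with h4 | h4
        · exact hm.n0 y hy (h4 ▸ hFH h1)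
        · exact hm.n0 y' hy' (h4 ▸ hFH' h1)
  have c2 : (F \ X).card = 2 * r F := by
    rw [c1]
    unfold sg at hF0
    omega
  have c3 : H y' \ T0 = insert y (H y' \ X) := by
    ext w
    rw [mem_sdiff, mem_insert, mem_sdiff, hX, mem_union]
    constructor
    · rintro ⟨h1, h2⟩
      by_cases h3 : w ∈ T1
      · rcases hpair w (mem_sdiff.2 ⟨h3, h2⟩) with h4 | h4
        · exact Or.inl h4
        · exact absurd (h4 ▸ h1) (hm.n0 y' hy')
      · exact Or.inr ⟨h1, fun h4 => h4.elim h2 h3⟩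
    · rintro (h1 | ⟨h1, h2⟩)
      · rw [h1]
        exact ⟨hm.in1 y' hy' (mem_erase.2 ⟨hne.symm, hy⟩), hyT.2⟩
      · exact ⟨h1, fun h3 => h2 (Or.inl h3)⟩
  have c4 : (H y' \ X).card = S.card + (F \ X).card := by
    have h1 : H y' \ X = S ∪ (F \ X) := by
      ext w
      rw [hS, mem_union, mem_sdiff, mem_sdiff, mem_sdiff, mem_sdiff]
      constructor
      · rintro ⟨h1, h2⟩
        by_cases h3 : w ∈ F
        · exact Or.inr ⟨h3, h2⟩
        · exact Or.inl ⟨⟨h1, h3⟩, h2⟩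
      · rintro (⟨⟨h1, -⟩, h2⟩ | ⟨h1, h2⟩)
        · exact ⟨h1, h2⟩
        · exact ⟨hFH' h1, h2⟩
    rw [h1, card_union_of_disjoint]
    rw [disjoint_left]
    intro w hw hw'
    rw [hS, mem_sdiff, mem_sdiff] at hw
    exact hw.1.2 (mem_sdiff.1 hw').1
  have c5 : (H y' \ T0).card = 2 * r (H y') := by
    have h1 := hm.t0 y' hy'
    unfold sg at h1
    omega
  rw [c3, card_insert_of_notMem (fun h => (mem_sdiff.1 h).2 hyX), c4, c2] at c5
  have hSF : Disjoint S F := by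
    rw [disjoint_left]
    intro w hw hw'
    rw [hS, mem_sdiff, mem_sdiff] at hw
    exact hw.1.2 hw'
  have hSX : ∀ w ∈ S, w ∉ X := fun w hw => (mem_sdiff.1 hw).2
  have hSH : S ⊆ H y' := sdiff_subset.trans sdiff_subset
  refine ⟨c2.symm, ?_⟩
  have hd1 : Disjoint (DD r f T0 H y) S := by
    rw [disjoint_left]
    intro w hw hw'
    exact hSX w hw' (x1 hw)
  have hd2 : Disjoint (DD r f T1 Hs (m y)) S := by
    rw [disjoint_left]
    intro w hw hw'
    exact hSX w hw' (x2 hw)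
  have hl : ∀ x ∈ DD r f T0 H y ∪ DD r f T1 Hs (m y), r (insert x F) ≠ r F := by
    intro x hx
    rcases mem_union.1 hx with hx | hx
    · exact DD.nl hE hc hm hy hFH x hx
    · exact DD.nl hE hc.swap hms hmy (by rw [hHs]; exact hFH) x hx
  have hs : ∀ A ⊆ S, A.Nonempty → A.card + 1 + 2 * r F ≤ 2 * r (A ∪ F) := by
    intro A hA hAn
    by_contra hcon
    have hAE : A ∪ F ⊆ E := union_subset (hA.trans (hSH.trans hH')) hFE
    have h1 := hn (A ∪ F) hAE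
    have h2 : (A ∪ F) \ T0 = A ∪ (F \ X) := by
      rw [c1]
      ext w
      rw [mem_sdiff, mem_union, mem_union, mem_sdiff]
      constructor
      · rintro ⟨h3 | h3, h4⟩
        · exact Or.inl h3
        · exact Or.inr ⟨h3, h4⟩
      · rintro (h3 | h3)
        · exact ⟨Or.inl h3, fun h4 => hSX w (hA h3) (mem_union_left _ h4)⟩
        · exact ⟨Or.inr h3.1, h3.2⟩
    have h3 : ((A ∪ F) \ T0).card = A.card + 2 * r F := by
      rw [h2, card_union_of_disjoint, c2]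
      rw [disjoint_left]
      intro w hw hw'
      exact disjoint_left.1 hSF (hA hw) (mem_sdiff.1 hw').1
    have h4 : sg r T0 (A ∪ F) = 0 := by
      unfold sg at h1 ⊢
      rw [h3] at h1 ⊢
      omega
    have h5 : y ∉ A ∪ F := by
      intro h6
      rcases mem_union.1 h6 with h6 | h6
      · exact hSX y (hA h6) hyX
      · exact hm.n0 y hy (hFH h6)
    have h6 : y' ∉ A ∪ F := by
      intro h7
      rcases mem_union.1 h7 with h7 | h7
      · exact hSX y' (hA h7) hyX'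
      · exact hm.n0 y' hy' (hFH' h7)
    obtain ⟨a, ha⟩ := hAn
    have h7 := hm.x0 y hy _ hAE h4 h5 (mem_union_left _ ha)
    have h8 := hm.x0 y' hy' _ hAE h4 h6 (mem_union_left _ ha)
    exact disjoint_left.1 hSF (hA ha) (mem_inter.2 ⟨h8, h7⟩)
  have hrk : ∀ Z ⊆ S ∪ F ∪ (DD r f T0 H y ∪ DD r f T1 Hs (m y)), r Z ≤ r (H y') := by
    intro Z hZ
    refine hE.rk.mono Z (H y') (hZ.trans ?_)
    exact union_subset (union_subset hSH hFH') (union_subset k1 k2)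
  rcases adjF (r := r) (S := S) (F := F) (K1 := DD r f T0 H y) (K2 := DD r f T1 Hs (m y)) (g := r (H y'))
    hE.rk hSF hd1 hd2 (DD.ne hm hy) (DD.ne hms hmy) hl (by omega) hs hrk with h1 | ⟨h1, h2⟩
  · rw [eK2] at h1
    exact h1
  · exfalso
    have hcol2 : ∀ x ∈ DD r f T1 Hs (m y), r (F ∪ (DD r f T1 Hs (m y)).erase x) =
        r (F ∪ DD r f T1 Hs (m y)) := by
      have h4 := DD.col (H := Hs) (U := Hs (m y')) hE hc.swap hmy (by rw [hHs']; exact k2)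
        (by rw [hHs, hHs']; exact hmod)
      rw [hHs, hHs'] at h4
      exact h4
    have h3 := hst F hFE (DD r f T0 H y) (k1.trans hH') (DD r f T1 Hs (m y)) (k2.trans hH') (DD.ne hm hy)
      (DD.ne hms hmy) (DD.simple hE hc hm hk.ge hy) (DD.simple hE hc.swap hms hks hmy) hl
      (DD.col hE hc hy k1 hmod) hcol2 h1
    have h4 := hE.rk.mono (F ∪ (DD r f T0 H y ∪ DD r f T1 Hs (m y))) (H y')
      (union_subset hFH' (union_subset k1 k2))
    have h5 := hE.rk.mono (H y') E hH'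
    have h6 := hE.rank
    omega

end Pool.Agent.EX84
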