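import Pool.Agent.EX84.K2C

/-!
Closest pairs at distance at least two, part four: the final contradiction.
-/

set_option autoImplicit false

namespace Pool.Agent.EX84

open Finset Pool.Agent.DT3 Pool.Agent.CF98 Pool.Agent.WT59

variable {α : Type*} [DecidableEq α] {r : Finset α → ℕ} {E T0 T1 : Finset α} {f : ℕ}
  {Q : Finset α → Prop}

/-- Ranks of unions over two sets spanning everything. -/
theorem rk_glue (hE : Env r E f) {H1 H2 A1 A2 B0 : Finset α} (hH1 : H1 ⊆ E) (hH2 : H2 ⊆ E)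
    (hU : r (H1 ∪ H2) = f) (hB : B0 ⊆ H1 ∩ H2) (hBr : r B0 = r (H1 ∩ H2))
    (hA1 : A1 ⊆ H1) (hA2 : A2 ⊆ H2) (h1 : r (A1 ∪ (H1 ∩ H2)) = r H1) (h2 : r (A2 ∪ (H1 ∩ H2)) = r H2) :
    r (A1 ∪ A2 ∪ B0) = f := by
  have hr := hE.rk
  have e1 : r (B0 ∪ (A1 ∪ A2)) = r ((H1 ∩ H2) ∪ (A1 ∪ A2)) := rk_cup_congr hr hB hBr _
  have e2 : r (A1 ∪ (H1 ∩ H2) ∪ (A2 ∪ (H1 ∩ H2))) = r (H1 ∪ (A2 ∪ (H1 ∩ H2))) :=
    rk_cup_congr hr (union_subset hA1 inter_subset_left) h1 _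
  have e3 : r (A2 ∪ (H1 ∩ H2) ∪ H1) = r (H2 ∪ H1) :=
    rk_cup_congr hr (union_subset hA2 inter_subset_right) h2 _
  have e4 : (H1 ∩ H2) ∪ (A1 ∪ A2) = A1 ∪ (H1 ∩ H2) ∪ (A2 ∪ (H1 ∩ H2)) := by
    ext w; simp only [mem_union, mem_inter]; tauto
  rw [union_comm (A1 ∪ A2) B0, e1, e4, e2, union_comm H1, e3, union_comm H2 H1, hU]

theorem glue (hE : Env r E f) {H1 H2 X J1 J2 : Finset α} {d e d' e' : α}
    (hH1 : H1 ⊆ E) (hH2 : H2 ⊆ E) (hU : r (H1 ∪ H2) = f) (hmod : r H1 + r H2 = f + r (H1 ∩ H2)) (hXE : X ⊆ E)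
    (hX2 : ∀ Y ⊆ E, (Y \ X).card ≤ 2 * r Y)
    (hF : ((H1 ∩ H2) \ X).card = 2 * r (H1 ∩ H2))
    (hc1 : ((H1 \ (H1 ∩ H2)) \ X).card + 1 + 2 * r (H1 ∩ H2) = 2 * r H1)
    (hc2 : ((H2 \ (H1 ∩ H2)) \ X).card + 1 + 2 * r (H1 ∩ H2) = 2 * r H2)
    (hJ1 : J1 ⊆ (H1 \ (H1 ∩ H2)) \ X) (hJ2 : J2 ⊆ (H2 \ (H1 ∩ H2)) \ X)
    (j1 : J1.card + 1 + r (H1 ∩ H2) = r H1) (j2 : J2.card + 1 + r (H1 ∩ H2) = r H2)
    (b1 : r ((((H1 \ (H1 ∩ H2)) \ X) \ J1) ∪ (H1 ∩ H2)) = r H1)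
    (b2 : r ((((H2 \ (H1 ∩ H2)) \ X) \ J2) ∪ (H1 ∩ H2)) = r H2)
    (hd : d ∈ H2) (hdX : d ∈ X) (hd1 : r (insert d (J2 ∪ (H1 ∩ H2))) = r H2)
    (hd' : d' ∈ H2) (hdX' : d' ∈ X) (hd1' : r (insert d' (J2 ∪ (H1 ∩ H2))) = r H2)
    (he : e ∈ H1) (heX : e ∈ X) (he1 : r (insert e (J1 ∪ (H1 ∩ H2))) = r H1)
    (he' : e' ∈ H1) (heX' : e' ∈ X) (he1' : r (insert e' (J1 ∪ (H1 ∩ H2))) = r H1)
    (hB : Bs r f (X \ {d, e})) (hB' : Bs r f (X \ {d', e'})) : Stp r E f (X \ {d, e}) (X \ {d', e'}) := by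
  have hr := hE.rk
  set F : Finset α := H1 ∩ H2 with hFd
  set S1 : Finset α := (H1 \ F) \ X with hS1
  set S2 : Finset α := (H2 \ F) \ X with hS2
  have hFE : F ⊆ E := inter_subset_left.trans hH1
  have hYr : r (F \ X) = r F := by
    have h1 := hX2 (F \ X) (sdiff_subset.trans hFE)
    rw [Finset.sdiff_idem] at h1
    have h2 := hr.mono (F \ X) F sdiff_subset
    omega
  obtain ⟨C, hCY, c1, c2, c3, c4⟩ := split2 hr hr (Y := F \ X) (by omega) (by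
    intro Z hZ
    have h1 := hX2 Z (hZ.trans (sdiff_subset.trans hFE))
    have h2 : Z \ X = Z := by
      rw [Finset.sdiff_eq_self_iff_disjoint, disjoint_left]
      intro w hw
      exact (mem_sdiff.1 (hZ hw)).2
    rw [h2] at h1
    omega)
  set B0 : Finset α := (F \ X) \ C with hB0
  have hCF : C ⊆ F := hCY.trans sdiff_subset
  have hB0F : B0 ⊆ F := sdiff_subset.trans sdiff_subset
  have s1 : S1 ⊆ H1 := sdiff_subset.trans sdiff_subset
  have s2 : S2 ⊆ H2 := sdiff_subset.trans sdiff_subset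
  have s1F : ∀ w ∈ S1, w ∉ F := fun w hw => (mem_sdiff.1 (mem_sdiff.1 hw).1).2
  have s2F : ∀ w ∈ S2, w ∉ F := fun w hw => (mem_sdiff.1 (mem_sdiff.1 hw).1).2
  have s1X : ∀ w ∈ S1, w ∉ X := fun w hw => (mem_sdiff.1 hw).2
  have s2X : ∀ w ∈ S2, w ∉ X := fun w hw => (mem_sdiff.1 hw).2
  have s12 : ∀ w ∈ S1, w ∉ S2 := fun w hw hw' => s1F w hw (mem_inter.2 ⟨s1 hw, s2 hw'⟩)
  set D : Finset α := (S1 \ J1) ∪ (S2 \ J2) ∪ B0 with hD
  have hDX : ∀ w ∈ D, w ∉ X := by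
    intro w hw
    rw [hD, mem_union, mem_union] at hw
    rcases hw with (hw | hw) | hw
    · exact s1X w (mem_sdiff.1 hw).1
    · exact s2X w (mem_sdiff.1 hw).1
    · exact (mem_sdiff.1 (mem_sdiff.1 hw).1).2
  have hDE : D ⊆ E := union_subset (union_subset (sdiff_subset.trans (s1.trans hH1))
    (sdiff_subset.trans (s2.trans hH2))) (hB0F.trans hFE)
  -- the common block
  have k1 := card_sdiff_add_card_eq_card hJ1
  have k2 := card_sdiff_add_card_eq_card hJ2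
  have d1 : Disjoint (S1 \ J1) (S2 \ J2) := by
    rw [disjoint_left]
    intro w hw hw'
    exact s12 w (mem_sdiff.1 hw).1 (mem_sdiff.1 hw').1
  have d2 : Disjoint ((S1 \ J1) ∪ (S2 \ J2)) B0 := by
    rw [disjoint_left]
    intro w hw hw'
    rcases mem_union.1 hw with hw | hw
    · exact s1F w (mem_sdiff.1 hw).1 (hB0F hw')
    · exact s2F w (mem_sdiff.1 hw).1 (hB0F hw')
  have hDc : D.card = f := by
    rw [hD, card_union_of_disjoint d2, card_union_of_disjoint d1]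
    omega
  have hDr : r D = f :=
    rk_glue hE hH1 hH2 hU hB0F (c4.trans hYr) (sdiff_subset.trans s1) (sdiff_subset.trans s2) b1 b2
  -- the second blocks
  have key : ∀ d e : α, d ∈ H2 → d ∈ X → r (insert d (J2 ∪ F)) = r H2 → e ∈ H1 → e ∈ X →
      r (insert e (J1 ∪ F)) = r H1 → Bs r f (X \ {d, e}) →
      X \ {d, e} ⊆ E ∧ Disjoint (X \ {d, e}) D ∧ Bs r f (E \ (X \ {d, e} ∪ D)) := by
    intro d e hd hdX hd1 he heX he1 hB
    have hdis : Disjoint (X \ {d, e}) D := by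
      rw [disjoint_left]
      intro w hw hw'
      exact hDX w hw' (mem_sdiff.1 hw).1
    have hAE : X \ {d, e} ⊆ E := sdiff_subset.trans hXE
    have hcard : (E \ (X \ {d, e} ∪ D)).card = f := by
      rw [card_sdiff_of_subset (union_subset hAE hDE), card_union_of_disjoint hdis, hE.card, hB.1, hDc]
      omega
    refine ⟨hAE, hdis, hcard, ?_⟩
    have h1 : r (insert e J1 ∪ insert d J2 ∪ C) = f := by
      refine rk_glue hE hH1 hH2 hU hCF (c2.trans hYr) (insert_subset he (hJ1.trans s1))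
        (insert_subset hd (hJ2.trans s2)) ?_ ?_
      · rw [insert_union]; exact he1
      · rw [insert_union]; exact hd1
    have h2 : insert e J1 ∪ insert d J2 ∪ C ⊆ E \ (X \ {d, e} ∪ D) := by
      intro w hw
      rw [mem_sdiff, mem_union, not_or]
      rw [mem_union, mem_union, mem_insert, mem_insert] at hw
      have hXd : ∀ w, w ∈ D → w ∈ X → False := fun w h1 h2 => hDX w h1 h2
      rcases hw with ((hw | hw) | (hw | hw)) | hw
      · rw [hw]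
        exact ⟨hXE heX, fun h3 => (mem_sdiff.1 h3).2 (by simp), fun h3 => hXd e h3 heX⟩
      · refine ⟨hH1 (s1 (hJ1 hw)), fun h3 => s1X w (hJ1 hw) (mem_sdiff.1 h3).1, fun h3 => ?_⟩
        rw [hD, mem_union, mem_union] at h3
        rcases h3 with (h3 | h3) | h3
        · exact (mem_sdiff.1 h3).2 hw
        · exact s12 w (hJ1 hw) (mem_sdiff.1 h3).1
        · exact s1F w (hJ1 hw) (hB0F h3)
      · rw [hw]
        exact ⟨hXE hdX, fun h3 => (mem_sdiff.1 h3).2 (by simp), fun h3 => hXd d h3 hdX⟩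
      · refine ⟨hH2 (s2 (hJ2 hw)), fun h3 => s2X w (hJ2 hw) (mem_sdiff.1 h3).1, fun h3 => ?_⟩
        rw [hD, mem_union, mem_union] at h3
        rcases h3 with (h3 | h3) | h3
        · exact s12 w (mem_sdiff.1 h3).1 (hJ2 hw)
        · exact (mem_sdiff.1 h3).2 hw
        · exact s2F w (hJ2 hw) (hB0F h3)
      · refine ⟨hFE (hCF hw), fun h3 => (mem_sdiff.1 (hCY hw)).2 (mem_sdiff.1 h3).1, fun h3 => ?_⟩
        rw [hD, mem_union, mem_union] at h3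
        rcases h3 with (h3 | h3) | h3
        · exact s1F w (mem_sdiff.1 h3).1 (hCF hw)
        · exact s2F w (mem_sdiff.1 h3).1 (hCF hw)
        · exact (mem_sdiff.1 h3).2 hw
    have h3 := hr.mono _ _ h2
    have h4 := hr.mono (E \ (X \ {d, e} ∪ D)) E sdiff_subset
    have h5 := hE.rank
    omega
  obtain ⟨a1, a2, a3⟩ := key d e hd hdX hd1 he heX he1 hB
  obtain ⟨a4, a5, a6⟩ := key d' e' hd' hdX' hd1' he' heX' he1' hB'
  exact ⟨a1, a4, hB, hB', D, hDE, a2, a5, ⟨hDc, hDr⟩, a3, a6⟩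

/-- The distance is not two or more. -/
theorem k2 (hE : Env r E f) (hst : Star r E f) (hQ : ∀ A A', Stp r E f A A' → Q A → Q A')
    (hem : ∀ (Q : Finset α → Prop) (T0 T1 : Finset α), Clo r E f Q T0 T1 → ∃ m c H, EM r E f T0 T1 m c H)
    (hc : Clo r E f Q T0 T1) (hk2 : 2 ≤ (T0 \ T1).card) : False := by
  obtain ⟨m, c, H, hm⟩ := hem Q T0 T1 hc
  have hk : (T0 \ T1).card = 2 := by
    by_contra hk
    exact k3 hE hst hem hc hm (by omega)
  obtain ⟨y1, y2, hy1, hy2, hne⟩ : ∃ y1 y2, y1 ∈ T1 \ T0 ∧ y2 ∈ T1 \ T0 ∧ y2 ≠ y1 := by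
    obtain ⟨a, ha, b, hb, hab⟩ := one_lt_card.1 (show 1 < (T1 \ T0).card by rw [← hc.card_eq]; omega)
    exact ⟨a, b, ha, hb, hab.symm⟩
  have hpair := pair_of hc hk hy1 hy2 hne
  have hn := sg_nonneg hE.rk hc.g0.2.2
  have hH1 := hm.hE y1 hy1
  have hH2 := hm.hE y2 hy2
  have hy1' := mem_sdiff.1 hy1
  have hy2' := mem_sdiff.1 hy2
  -- `D1`, `D2` span
  have hsp := spanD hE hst hem hc hm hk2 hy1 hy2 hne (Subset.refl E) (sg_E hE hc.g0)
    ((dsub hE hem hc hm hk2 hy1 hy2 hne).trans hH2) ((dsub hE hem hc hm hk2 hy2 hy1 hne.symm).trans hH1)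
  obtain ⟨hmod, hun, hF0⟩ := ti_mod hE.rk hn hH1 hH2 (hm.t0 y1 hy1) (hm.t0 y2 hy2)
  have hUE : H y1 ∪ H y2 ⊆ E := union_subset hH1 hH2
  have hUf : r (H y1 ∪ H y2) = f := by
    have h1 := hE.rk.mono ((H y2 ∩ E ∩ H y1) ∪ (DD r f T0 H y1 ∪ DD r f T0 H y2)) (H y1 ∪ H y2) (by
      intro w hw
      rcases mem_union.1 hw with hw | hw
      · exact mem_union_left _ (mem_inter.1 hw).2
      · rcases mem_union.1 hw with hw | hw
        · exact mem_union_right _ (dsub hE hem hc hm hk2 hy1 hy2 hne hw)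
        · exact mem_union_left _ (dsub hE hem hc hm hk2 hy2 hy1 hne.symm hw))
    have h2 := hE.rk.mono _ _ hUE
    have h3 := hE.rank
    omega
  -- adjacency in both factors
  obtain ⟨f1, J2, hJ2, j2, -, b2, ⟨d, hd, hd1⟩, ⟨d', hd', hd1'⟩⟩ := adj2 hE hst hem hc hm hk hy1 hy2 hne
  obtain ⟨f2, J1, hJ1, j1, -, b1, ⟨e, he, he1⟩, ⟨e', he', he1'⟩⟩ := adj2 hE hst hem hc hm hk hy2 hy1 hne.symm
  -- the swapped pair
  obtain ⟨ms, cs, Hs, hms⟩ := hem _ _ _ hc.swap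
  have hmy1 := hm.mp y1 hy1
  have hmy2 := hm.mp y2 hy2
  have hmne : m y2 ≠ m y1 := fun h => hne (hm.mi hy2 hy1 h)
  have hHs1 : Hs (m y1) = H y1 := TG.uniq (hms.tg hmy1) (hm.tg1 hy1)
  have hHs2 : Hs (m y2) = H y2 := TG.uniq (hms.tg hmy2) (hm.tg1 hy2)
  have hks : (T1 \ T0).card = 2 := by rw [← hc.card_eq, hk]
  have hcolB := cols hE hem hc hm hk hy1 hy2 hne hd he
  have hcolR := cols hE hem hc.swap hms hks hmy1 hmy2 hmne (d := d') (e := e') (by rw [hHs1]; exact hd')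
    (by rw [hHs2]; exact he')
  rw [union_comm T1 T0] at hcolR
  have hdH : d ∈ H y2 := dsub hE hem hc hm hk2 hy1 hy2 hne hd
  have heH : e ∈ H y1 := dsub hE hem hc hm hk2 hy2 hy1 hne.symm he
  have hdH' : d' ∈ H y2 := by
    have h1 := dsub hE hem hc.swap hms hks.ge hmy1 hmy2 hmne
    rw [hHs1, hHs2] at h1
    exact h1 hd'
  have heH' : e' ∈ H y1 := by
    have h1 := dsub hE hem hc.swap hms hks.ge hmy2 hmy1 hmne.symm
    rw [hHs1, hHs2] at h1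
    exact h1 he'
  have hdX : d ∈ T0 ∪ T1 := DD.sub hE hc hy1 hd
  have heX : e ∈ T0 ∪ T1 := DD.sub hE hc hy2 he
  have hdX' : d' ∈ T0 ∪ T1 := by
    have h1 : d' ∈ DD r f T1 Hs (m y1) := by rw [DD, hHs1]; exact hd'
    have h2 := DD.sub hE hc.swap hmy1 h1
    rwa [union_comm] at h2
  have heX' : e' ∈ T0 ∪ T1 := by
    have h1 : e' ∈ DD r f T1 Hs (m y2) := by rw [DD, hHs2]; exact he'
    have h2 := DD.sub hE hc.swap hmy2 h1
    rwa [union_comm] at h2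
  have eF : H y2 ∩ H y1 = H y1 ∩ H y2 := inter_comm _ _
  rw [eF] at hJ2 j2 b2 hd1 hd1' f1
  -- counts
  have hXE : T0 ∪ T1 ⊆ E := union_subset hc.g0.1 hc.g1.1
  have c3 : ∀ y ∈ T1 \ T0, ∀ y' ∈ T1 \ T0, y' ≠ y → (∀ w ∈ T1 \ T0, w = y ∨ w = y') →
      (H y' \ T0).card = (H y' \ (T0 ∪ T1)).card + 1 := by
    intro y hy y' hy' hyy hp
    have h0 : H y' \ T0 = insert y (H y' \ (T0 ∪ T1)) := by
      ext w
      rw [mem_sdiff, mem_insert, mem_sdiff, mem_union]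
      constructor
      · rintro ⟨h1, h2⟩
        by_cases h3 : w ∈ T1
        · rcases hp w (mem_sdiff.2 ⟨h3, h2⟩) with h4 | h4
          · exact Or.inl h4
          · exact absurd (h4 ▸ h1) (hm.n0 y' hy')
        · exact Or.inr ⟨h1, fun h4 => h4.elim h2 h3⟩
      · rintro (h1 | ⟨h1, h2⟩)
        · rw [h1]
          exact ⟨hm.in1 y' hy' (mem_erase.2 ⟨hyy.symm, hy⟩), (mem_sdiff.1 hy).2⟩
        · exact ⟨h1, fun h3 => h2 (Or.inl h3)⟩
    rw [h0, card_insert_of_notMem (fun h => (mem_sdiff.1 h).2 (mem_union_right _ (mem_sdiff.1 hy).1))]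
  have c4 : ∀ G : Finset α, H y1 ∩ H y2 ⊆ G → (G \ (T0 ∪ T1)).card =
      ((G \ (H y1 ∩ H y2)) \ (T0 ∪ T1)).card + ((H y1 ∩ H y2) \ (T0 ∪ T1)).card := by
    intro G hG
    rw [← card_union_of_disjoint]
    · congr 1
      ext w
      rw [mem_union, mem_sdiff, mem_sdiff, mem_sdiff, mem_sdiff]
      constructor
      · rintro ⟨h1, h2⟩
        by_cases h3 : w ∈ H y1 ∩ H y2
        · exact Or.inr ⟨h3, h2⟩
        · exact Or.inl ⟨⟨h1, h3⟩, h2⟩
      · rintro (⟨⟨h1, -⟩, h2⟩ | ⟨h1, h2⟩)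
        · exact ⟨h1, h2⟩
        · exact ⟨hG h1, h2⟩
    · rw [disjoint_left]
      intro w hw hw'
      exact (mem_sdiff.1 (mem_sdiff.1 hw).1).2 (mem_sdiff.1 hw').1
  have t1 := hm.t0 y1 hy1
  have t2 := hm.t0 y2 hy2
  unfold sg at t1 t2
  have p1 := c3 y2 hy2 y1 hy1 hne.symm (fun w hw => (hpair w hw).symm)
  have p2 := c3 y1 hy1 y2 hy2 hne hpair
  have q1 := c4 (H y1) inter_subset_left
  have q2 := c4 (H y2) inter_subset_right
  have hstp := glue hE hH1 hH2 hUf (by rw [hmod, hUf]) hXE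
    (fun Y hY => by
      have h1 := hn Y hY
      unfold sg at h1
      have h2 := card_le_card (sdiff_subset_sdiff (Subset.refl Y) (subset_union_left (s₁ := T0) (s₂ := T1)))
      omega)
    f1.symm (by omega) (by omega) hJ1 hJ2 j1 j2 b1 b2 hdH hdX hd1 hdH' hdX' hd1' heH heX he1 heH' heX' he1'
    hcolB.1.2.1 hcolR.1.2.1
  exact hcolR.2 (hQ _ _ hstp hcolB.2)

end Pool.Agent.EX84
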